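import Pool.Agent.MP_6c7bdb_gt.FI.Defs

namespace Pool.Agent.HZ64

open scoped MatrixGroups ContDiff
open Complex

/-- The magnetic vector field. -/
noncomputable def XH (w : ℂ × ℂ) : ℂ × ℂ :=
  (2 * (w.1.im : ℂ) ^ 2 * w.2, -2 * I * (w.1.im : ℂ) * ((w.2.re : ℂ) ^ 2 + (w.2.im : ℂ) ^ 2) - 2 * I * w.2)

theorem isOpen_phase : IsOpen phase := isOpen_lt continuous_const (by fun_prop)

theorem contDiff_kin : ContDiff ℝ ∞ kin := by
  unfold kin
  have h1 : ContDiff ℝ ∞ (fun w : ℂ × ℂ => w.1.im) := imCLM.contDiff.comp contDiff_fst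
  have h2 : ContDiff ℝ ∞ (fun w : ℂ × ℂ => w.2.re) := reCLM.contDiff.comp contDiff_snd
  have h3 : ContDiff ℝ ∞ (fun w : ℂ × ℂ => w.2.im) := imCLM.contDiff.comp contDiff_snd
  exact (h1.pow 2).mul ((h2.pow 2).add (h3.pow 2))

theorem differentiable_kin : Differentiable ℝ kin := contDiff_kin.differentiable (by simp)

theorem kin_nonneg (w : ℂ × ℂ) : 0 ≤ kin w := by unfold kin; positivity

theorem fderiv_kin (w v : ℂ × ℂ) : fderiv ℝ kin w v =
    2 * w.1.im * v.1.im * (w.2.re ^ 2 + w.2.im ^ 2) +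
      w.1.im ^ 2 * (2 * w.2.re * v.2.re + 2 * w.2.im * v.2.im) := by
  have h1 : HasFDerivAt (fun w : ℂ × ℂ => w.1.im) (imCLM.comp (ContinuousLinearMap.fst ℝ ℂ ℂ)) w :=
    (imCLM.comp (ContinuousLinearMap.fst ℝ ℂ ℂ)).hasFDerivAt
  have h2 : HasFDerivAt (fun w : ℂ × ℂ => w.2.re) (reCLM.comp (ContinuousLinearMap.snd ℝ ℂ ℂ)) w :=
    (reCLM.comp (ContinuousLinearMap.snd ℝ ℂ ℂ)).hasFDerivAt
  have h3 : HasFDerivAt (fun w : ℂ × ℂ => w.2.im) (imCLM.comp (ContinuousLinearMap.snd ℝ ℂ ℂ)) w :=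
    (imCLM.comp (ContinuousLinearMap.snd ℝ ℂ ℂ)).hasFDerivAt
  have h := ((h1.pow 2).mul ((h2.pow 2).add (h3.pow 2))).fderiv
  have e : kin = ((fun w : ℂ × ℂ => w.1.im ^ 2) * ((fun w : ℂ × ℂ => w.2.re ^ 2) + fun w : ℂ × ℂ => w.2.im ^ 2)) := by
    funext w; simp [kin]
  rw [e, h]
  simp
  ring

theorem XH_1re (w : ℂ × ℂ) : (XH w).1.re = 2 * w.1.im ^ 2 * w.2.re := by
  simp [XH, pow_two]
theorem XH_1im (w : ℂ × ℂ) : (XH w).1.im = 2 * w.1.im ^ 2 * w.2.im := by
  simp [XH, pow_two]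
theorem XH_2re (w : ℂ × ℂ) : (XH w).2.re = 2 * w.2.im := by
  simp [XH, pow_two]
theorem XH_2im (w : ℂ × ℂ) : (XH w).2.im = -2 * w.1.im * (w.2.re ^ 2 + w.2.im ^ 2) - 2 * w.2.re := by
  simp [XH, pow_two]

theorem omega_XH {w : ℂ × ℂ} (hw : w ∈ phase) (μ : ℝ) (v : ℂ × ℂ) :
    omega w (μ • XH w) v = -(μ * fderiv ℝ kin w v) := by
  have hy : w.1.im ≠ 0 := ne_of_gt hw
  rw [fderiv_kin]
  simp only [omega, Prod.smul_fst, Prod.smul_snd, smul_re, smul_im, smul_eq_mul, XH_1re, XH_1im, XH_2re, XH_2im]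
  field_simp
  ring

theorem omega_inj {w X Y : ℂ × ℂ} (h : ∀ v, omega w X v = omega w Y v) : X = Y := by
  have h1 := h (0, 1)
  have h2 := h (0, I)
  have h3 := h (1, 0)
  have h4 := h (I, 0)
  simp [omega] at h1 h2 h3 h4
  rw [h2] at h3
  rw [h1] at h4
  refine Prod.ext (Complex.ext h1 h2) (Complex.ext ?_ ?_)
  · linarith
  · linarith

theorem isHamVec_iff {F : ℂ × ℂ → ℝ} {w : ℂ × ℂ} (hw : w ∈ phase) {μ : ℝ}
    (hF : fderiv ℝ F w = μ • fderiv ℝ kin w) (X : ℂ × ℂ) : IsHamVec F w X ↔ X = μ • XH w := by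
  constructor
  · intro h
    apply omega_inj (w := w)
    intro v
    rw [h v, omega_XH hw, hF]; simp
  · rintro rfl v
    rw [omega_XH hw, hF]; simp

theorem fderiv_kin_XH (w : ℂ × ℂ) : fderiv ℝ kin w (XH w) = 0 := by
  rw [fderiv_kin, XH_1im, XH_2re, XH_2im]; ring

theorem contDiff_XH : ContDiff ℝ 1 XH := by
  unfold XH
  have h1 : ContDiff ℝ 1 (fun w : ℂ × ℂ => (w.1.im : ℂ)) :=
    ofRealCLM.contDiff.comp (imCLM.contDiff.comp contDiff_fst)
  have h2 : ContDiff ℝ 1 (fun w : ℂ × ℂ => (w.2.re : ℂ)) :=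
    ofRealCLM.contDiff.comp (reCLM.contDiff.comp contDiff_snd)
  have h3 : ContDiff ℝ 1 (fun w : ℂ × ℂ => (w.2.im : ℂ)) :=
    ofRealCLM.contDiff.comp (imCLM.contDiff.comp contDiff_snd)
  refine ContDiff.prodMk ?_ ?_
  · exact (contDiff_const.mul (h1.pow 2)).mul contDiff_snd
  · exact ((contDiff_const.mul h1).mul ((h2.pow 2).add (h3.pow 2))).sub (contDiff_const.mul contDiff_snd)

/-- The area form of the plane. -/
def det (n j : ℂ) : ℝ := n.im * j.re - n.re * j.im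

/-- The covector of length `r` attached to the frame `(n, j)`. -/
noncomputable def psi (r : ℝ) (n j : ℂ) : ℂ × ℂ := (n / j, r * (starRingEnd ℂ) j ^ 2)

theorem ne_zero_of_det {n j : ℂ} (h : 0 < det n j) : j ≠ 0 := by
  rintro rfl; simp [det] at h

theorem normSq_pos_of_det {n j : ℂ} (h : 0 < det n j) : 0 < j.re ^ 2 + j.im ^ 2 := by
  have := normSq_pos.2 (ne_zero_of_det h)
  rw [normSq_apply] at this; nlinarith

theorem psi_im (r : ℝ) (n j : ℂ) : (psi r n j).1.im = det n j / (j.re ^ 2 + j.im ^ 2) := by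
  simp only [psi, det, div_im, normSq_apply]; ring

theorem psi_mem (r : ℝ) {n j : ℂ} (h : 0 < det n j) : psi r n j ∈ phase := by
  show 0 < (psi r n j).1.im
  rw [psi_im]; exact div_pos h (normSq_pos_of_det h)

theorem psi_2re (r : ℝ) (n j : ℂ) : (psi r n j).2.re = r * (j.re ^ 2 - j.im ^ 2) := by
  simp [psi, pow_two]
theorem psi_2im (r : ℝ) (n j : ℂ) : (psi r n j).2.im = -(2 * r * j.re * j.im) := by
  simp [psi, pow_two]; ring

theorem kin_psi (r : ℝ) {n j : ℂ} (h : det n j = 1) : kin (psi r n j) = r ^ 2 := by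
  have hp := normSq_pos_of_det (n := n) (j := j) (by rw [h]; exact one_pos)
  rw [kin, psi_im, psi_2re, psi_2im, h]
  field_simp
  ring

theorem exists_psi {w : ℂ × ℂ} (hw : w ∈ phase) {r : ℝ} (hr : 0 ≤ r) (hk : kin w = r ^ 2) :
    ∃ n j, det n j = 1 ∧ w = psi r n j := by
  have hy : 0 < w.1.im := hw
  have key : ∃ j : ℂ, w.1.im * (j.re ^ 2 + j.im ^ 2) = 1 ∧ w.2 = r * (starRingEnd ℂ) j ^ 2 := by
    rcases hr.eq_or_lt with rfl | hr
    · refine ⟨((√w.1.im)⁻¹ : ℝ), ?_, ?_⟩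
      · simp only [ofReal_re, ofReal_im, inv_pow, Real.sq_sqrt hy.le]
        field_simp; simp
      · have h0 : w.2.re ^ 2 + w.2.im ^ 2 = 0 := by
          have : w.1.im ^ 2 * (w.2.re ^ 2 + w.2.im ^ 2) = 0 := by simpa [kin] using hk
          rcases mul_eq_zero.1 this with h | h
          · exact absurd h (by positivity)
          · exact h
        have h1 : w.2.re = 0 := by nlinarith
        have h2 : w.2.im = 0 := by nlinarith
        simp [Complex.ext_iff, h1, h2]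
    · obtain ⟨j, hj⟩ := IsAlgClosed.exists_pow_nat_eq ((starRingEnd ℂ) w.2 / r) two_pos
      have hr' : (r : ℂ) ≠ 0 := by exact_mod_cast hr.ne'
      have e : w.2 = r * (starRingEnd ℂ) j ^ 2 := by
        rw [← map_pow, hj]; simp; field_simp
      refine ⟨j, ?_, e⟩
      have e1 : w.2.re = r * (j.re ^ 2 - j.im ^ 2) := by rw [e]; simp [pow_two]
      have e2 : w.2.im = -(2 * r * j.re * j.im) := by rw [e]; simp [pow_two]; ring
      rw [kin, e1, e2] at hk
      have h3 : r ^ 2 * ((w.1.im * (j.re ^ 2 + j.im ^ 2)) ^ 2 - 1) = 0 := by linear_combination hk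
      have h4 : (w.1.im * (j.re ^ 2 + j.im ^ 2)) ^ 2 = 1 := by
        rcases mul_eq_zero.1 h3 with h | h
        · exact absurd h (by positivity)
        · linarith
      have h5 : 0 ≤ w.1.im * (j.re ^ 2 + j.im ^ 2) := by positivity
      nlinarith
  obtain ⟨j, h1, h2⟩ := key
  have hj : j ≠ 0 := by rintro rfl; simp at h1
  refine ⟨w.1 * j, j, ?_, ?_⟩
  · simp only [det, mul_im, mul_re]; linear_combination h1
  · refine Prod.ext ?_ h2
    simp [psi, hj]

theorem sl_det (γ : SL(2, ℝ)) : γ 0 0 * γ 1 1 - γ 0 1 * γ 1 0 = 1 := by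
  have := γ.det_coe
  rwa [Matrix.det_fin_two] at this

theorem det_comb (a b c d : ℝ) (n j : ℂ) :
    det (a * n + b * j) (c * n + d * j) = (a * d - b * c) * det n j := by
  simp [det]; ring

/-- First component of the left action on frames. -/
noncomputable def gn (γ : SL(2, ℝ)) (n j : ℂ) : ℂ := (γ 0 0 : ℝ) * n + (γ 0 1 : ℝ) * j
/-- Second component of the left action on frames. -/
noncomputable def gj (γ : SL(2, ℝ)) (n j : ℂ) : ℂ := (γ 1 0 : ℝ) * n + (γ 1 1 : ℝ) * j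

theorem det_g (γ : SL(2, ℝ)) (n j : ℂ) : det (gn γ n j) (gj γ n j) = det n j := by
  rw [gn, gj, det_comb, sl_det, one_mul]

theorem mob_div (γ : SL(2, ℝ)) {n j : ℂ} (h : 0 < det n j) : mob γ (n / j) = gn γ n j / gj γ n j := by
  have hj := ne_zero_of_det h
  have e1 : ((γ 0 0 : ℝ) : ℂ) * (n / j) + (γ 0 1 : ℝ) = gn γ n j / j := by rw [gn]; field_simp
  have e2 : ((γ 1 0 : ℝ) : ℂ) * (n / j) + (γ 1 1 : ℝ) = gj γ n j / j := by rw [gj]; field_simp
  rw [mob, e1, e2, div_div_div_cancel_right₀ hj]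

theorem act_psi (γ : SL(2, ℝ)) (r : ℝ) {n j : ℂ} (h : 0 < det n j) :
    act γ (psi r n j) = psi r (gn γ n j) (gj γ n j) := by
  have hj := ne_zero_of_det h
  have hj' : (starRingEnd ℂ) j ≠ 0 := by simpa using hj
  have e2 : ((γ 1 0 : ℝ) : ℂ) * (n / j) + (γ 1 1 : ℝ) = gj γ n j / j := by rw [gj]; field_simp
  refine Prod.ext (mob_div γ h) ?_
  show r * (starRingEnd ℂ) j ^ 2 * (starRingEnd ℂ) ((((γ 1 0 : ℝ) : ℂ) * (n / j) + (γ 1 1 : ℝ)) ^ 2) =
    r * (starRingEnd ℂ) (gj γ n j) ^ 2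
  rw [e2, map_pow, map_div₀]
  field_simp

theorem psi_sign (r : ℝ) {ε : ℝ} (hε : ε = 1 ∨ ε = -1) (n j : ℂ) : psi r (ε * n) (ε * j) = psi r n j := by
  rcases hε with rfl | rfl
  · simp
  · simp [psi]

theorem psi_inj {r : ℝ} (hr : 0 < r) {n j n' j' : ℂ} (hj : j ≠ 0) (h : psi r n' j' = psi r n j) :
    ∃ ε : ℝ, (ε = 1 ∨ ε = -1) ∧ n' = ε * n ∧ j' = ε * j := by
  have hr' : (r : ℂ) ≠ 0 := by exact_mod_cast hr.ne'
  have h1 : n' / j' = n / j := congrArg Prod.fst h
  have h2 : (r : ℂ) * (starRingEnd ℂ) j' ^ 2 = r * (starRingEnd ℂ) j ^ 2 := congrArg Prod.snd h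
  have h3 : j' ^ 2 = j ^ 2 := by
    have := mul_left_cancel₀ hr' h2
    rw [← map_pow, ← map_pow] at this
    exact (starRingEnd ℂ).injective this
  rcases sq_eq_sq_iff_eq_or_eq_neg.1 h3 with h4 | h4
  · refine ⟨1, Or.inl rfl, ?_, by simp [h4]⟩
    rw [h4] at h1
    simpa [hj] using h1
  · refine ⟨-1, Or.inr rfl, ?_, by simp [h4]⟩
    rw [h4, div_neg, ← neg_div] at h1
    have := (div_left_inj' hj).1 h1
    simp [← this]

theorem act_mem (γ : SL(2, ℝ)) {w : ℂ × ℂ} (hw : w ∈ phase) : act γ w ∈ phase ∧ kin (act γ w) = kin w := by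
  obtain ⟨r, hr, hk⟩ : ∃ r : ℝ, 0 ≤ r ∧ kin w = r ^ 2 :=
    ⟨√(kin w), Real.sqrt_nonneg _, (Real.sq_sqrt (kin_nonneg w)).symm⟩
  obtain ⟨n, j, hd, rfl⟩ := exists_psi hw hr hk
  have hd' : 0 < det n j := by rw [hd]; exact one_pos
  rw [act_psi γ r hd']
  exact ⟨psi_mem r (by rw [det_g]; exact hd'), by rw [kin_psi r hd, kin_psi r (by rw [det_g, hd])]⟩

/-- The infinitesimal generator of the magnetic flow on the level `|p| = r`, acting on the rows of a frame. -/
noncomputable def gen (r : ℝ) (x : ℂ) : ℂ := I * (x + r * (starRingEnd ℂ) x)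

theorem gen_re (r : ℝ) (x : ℂ) : (gen r x).re = (r - 1) * x.im := by simp [gen]; ring
theorem gen_im (r : ℝ) (x : ℂ) : (gen r x).im = (r + 1) * x.re := by simp [gen]; ring

/-- The linear map `C + S A`. -/
noncomputable def ev (r C S : ℝ) (x : ℂ) : ℂ := C * x + S * gen r x

theorem ev_re (r C S : ℝ) (x : ℂ) : (ev r C S x).re = C * x.re + S * ((r - 1) * x.im) := by
  simp [ev, gen_re]
theorem ev_im (r C S : ℝ) (x : ℂ) : (ev r C S x).im = C * x.im + S * ((r + 1) * x.re) := by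
  simp [ev, gen_im]

theorem det_ev (r C S : ℝ) (n j : ℂ) :
    det (ev r C S n) (ev r C S j) = (C ^ 2 - (r ^ 2 - 1) * S ^ 2) * det n j := by
  simp only [det, ev_re, ev_im]; ring

theorem tr_ev (r C S : ℝ) (n j : ℂ) : det (ev r C S n) j + det n (ev r C S j) = 2 * C * det n j := by
  simp only [det, ev_re, ev_im]; ring

theorem ev_ev (r C S C' S' : ℝ) (x : ℂ) :
    ev r C S (ev r C' S' x) = ev r (C * C' + (r ^ 2 - 1) * S * S') (C * S' + S * C') x := by
  apply Complex.ext <;> simp only [ev_re, ev_im] <;> ring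

theorem ev_comb (r C S a b : ℝ) (x y : ℂ) : ev r C S (a * x + b * y) = a * ev r C S x + b * ev r C S y := by
  apply Complex.ext <;> simp [ev_re, ev_im] <;> ring

theorem ev_one (r : ℝ) (x : ℂ) : ev r 1 0 x = x := by simp [ev]

theorem gen_ev (r C S : ℝ) (x : ℂ) : gen r (ev r C S x) = ev r ((r ^ 2 - 1) * S) C x := by
  apply Complex.ext <;> simp only [gen_re, gen_im, ev_re, ev_im] <;> ring

theorem hasDerivAt_psi {r μ t : ℝ} {n j : ℝ → ℂ} (hn : HasDerivAt n (μ * gen r (n t)) t)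
    (hj : HasDerivAt j (μ * gen r (j t)) t) (hd : det (n t) (j t) = 1) :
    HasDerivAt (fun s => psi r (n s) (j s)) (μ • XH (psi r (n t) (j t))) t := by
  have hd' : 0 < det (n t) (j t) := by rw [hd]; exact one_pos
  have hj0 := ne_zero_of_det hd'
  have hp := normSq_pos_of_det hd'
  have h1 := hn.div hj hj0
  have h2 : HasDerivAt (fun s => (starRingEnd ℂ) (j s)) ((starRingEnd ℂ) (μ * gen r (j t))) t := hj.star
  have h3 := (h2.pow 2).const_mul (r : ℂ)
  have h := h1.prodMk h3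
  have hN : ((j t).re ^ 2 + (j t).im ^ 2 : ℝ) = (j t) * (starRingEnd ℂ) (j t) := by
    rw [mul_conj, normSq_apply]; push_cast; ring
  refine HasDerivAt.congr_deriv h (Eq.symm ?_)
  refine Prod.ext ?_ ?_
  · have e : μ * gen r (n t) * j t - n t * (μ * gen r (j t)) = ((2 * r * μ : ℝ) : ℂ) := by
      apply Complex.ext
      · simp only [sub_re, mul_re, mul_im, ofReal_re, ofReal_im, gen_re, gen_im]
        simp only [det] at hd
        linear_combination (2 * r * μ) * hd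
      · simp only [sub_im, mul_re, mul_im, ofReal_re, ofReal_im, gen_re, gen_im]
        ring
    have hj' : (starRingEnd ℂ) (j t) ≠ 0 := by simpa using hj0
    show (μ • XH (psi r (n t) (j t))).1 = (μ * gen r (n t) * j t - n t * (μ * gen r (j t))) / j t ^ 2
    rw [e]
    simp only [XH, Prod.smul_fst, psi_im, hd, real_smul]
    rw [ofReal_div, hN]
    simp only [psi]
    push_cast
    field_simp
  · apply Complex.ext
    · simp only [Prod.smul_snd, smul_re, smul_eq_mul, XH_2re, psi_2im]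
      simp [gen_re, gen_im]
      ring
    · simp only [Prod.smul_snd, smul_im, smul_eq_mul, XH_2im, psi_2im, psi_2re, psi_im, hd]
      simp [gen_re, gen_im]
      field_simp
      ring

/-- The pair of functions giving `exp (t A) = C t + S t A` when `A ^ 2 = κ`. -/
structure TrigPair (κ : ℝ) (C S : ℝ → ℝ) : Prop where
  dC : ∀ t, HasDerivAt C (κ * S t) t
  dS : ∀ t, HasDerivAt S (C t) t
  C0 : C 0 = 1
  S0 : S 0 = 0
  pyth : ∀ t, C t ^ 2 - κ * S t ^ 2 = 1
  addC : ∀ t u, C (t + u) = C t * C u + κ * S t * S u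
  addS : ∀ t u, S (t + u) = C t * S u + S t * C u

theorem trig_cos {κ q : ℝ} (hq : 0 < q) (h : κ = -q ^ 2) :
    TrigPair κ (fun t => Real.cos (q * t)) (fun t => Real.sin (q * t) / q) := by
  subst h
  refine ⟨fun t => ?_, fun t => ?_, by simp, by simp, fun t => ?_, fun t u => ?_, fun t u => ?_⟩
  · refine HasDerivAt.congr_deriv ((hasDerivAt_id' t).const_mul q).cos ?_
    field_simp
  · refine HasDerivAt.congr_deriv (((hasDerivAt_id' t).const_mul q).sin.div_const q) ?_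
    field_simp
  · field_simp; simp
  · rw [mul_add, Real.cos_add]; field_simp; ring
  · rw [mul_add, Real.sin_add]; field_simp; ring

theorem trig_cosh {κ k : ℝ} (hk : 0 < k) (h : κ = k ^ 2) :
    TrigPair κ (fun t => Real.cosh (k * t)) (fun t => Real.sinh (k * t) / k) := by
  subst h
  refine ⟨fun t => ?_, fun t => ?_, by simp, by simp, fun t => ?_, fun t u => ?_, fun t u => ?_⟩
  · refine HasDerivAt.congr_deriv ((hasDerivAt_id' t).const_mul k).cosh ?_
    field_simp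
  · refine HasDerivAt.congr_deriv (((hasDerivAt_id' t).const_mul k).sinh.div_const k) ?_
    field_simp
  · field_simp; rw [Real.cosh_sq]; ring
  · rw [mul_add, Real.cosh_add]; field_simp
  · rw [mul_add, Real.sinh_add]; field_simp; ring

/-- The magnetic flow line through the frame `(n, j)` on the level `|p| = r`. -/
noncomputable def line (r : ℝ) (C S : ℝ → ℝ) (n j : ℂ) (t : ℝ) : ℂ × ℂ :=
  psi r (ev r (C t) (S t) n) (ev r (C t) (S t) j)

section
variable {r : ℝ} {C S : ℝ → ℝ} (hT : TrigPair (r ^ 2 - 1) C S)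
include hT

theorem TrigPair.det_eq (n j : ℂ) (t : ℝ) : det (ev r (C t) (S t) n) (ev r (C t) (S t) j) = det n j := by
  rw [det_ev, hT.pyth, one_mul]

theorem TrigPair.ev_add (x : ℂ) (t u : ℝ) :
    ev r (C (t + u)) (S (t + u)) x = ev r (C t) (S t) (ev r (C u) (S u) x) := by
  rw [ev_ev, hT.addC, hT.addS]

theorem TrigPair.ev_zero (x : ℂ) : ev r (C 0) (S 0) x = x := by rw [hT.C0, hT.S0, ev_one]

theorem TrigPair.line_zero (n j : ℂ) : line r C S n j 0 = psi r n j := by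
  rw [line, hT.ev_zero, hT.ev_zero]

theorem TrigPair.hasDerivAt_ev (μ : ℝ) (x : ℂ) (t : ℝ) :
    HasDerivAt (fun s => ev r (C (μ * s)) (S (μ * s)) x) (μ * gen r (ev r (C (μ * t)) (S (μ * t)) x)) t := by
  have h0 : HasDerivAt (fun s : ℝ => μ * s) μ t := by simpa using (hasDerivAt_id t).const_mul μ
  have h1 := ((hT.dC (μ * t)).comp t h0).ofReal_comp.mul_const x
  have h2 := ((hT.dS (μ * t)).comp t h0).ofReal_comp.mul_const (gen r x)
  refine HasDerivAt.congr_deriv (h1.add h2) ?_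
  rw [gen_ev, ev]; push_cast; ring

theorem TrigPair.hasDerivAt_line (μ : ℝ) {n j : ℂ} (hd : det n j = 1) (t : ℝ) :
    HasDerivAt (fun s => line r C S n j (μ * s)) (μ • XH (line r C S n j (μ * t))) t :=
  hasDerivAt_psi (hT.hasDerivAt_ev μ n t) (hT.hasDerivAt_ev μ j t) (by rw [hT.det_eq, hd])

theorem TrigPair.line_mem {n j : ℂ} (hd : det n j = 1) (t : ℝ) : line r C S n j t ∈ phase :=
  psi_mem r (by rw [hT.det_eq, hd]; exact one_pos)

theorem TrigPair.kin_line {n j : ℂ} (hd : det n j = 1) (t : ℝ) : kin (line r C S n j t) = r ^ 2 :=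
  kin_psi r (by rw [hT.det_eq, hd])

end

end Pool.Agent.HZ64
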