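import Pool.Agent.MP_6c7bdb_gt.FI.Phi

namespace Pool.Agent.HZ64

open scoped MatrixGroups ContDiff
open Complex Filter Topology

theorem hasDerivAt_diag {s : ℝ → ℝ} {x : ℝ → ℂ} {τ s' : ℝ} {x' : ℂ} (hs : HasDerivAt s s' τ)
    (hx : HasDerivAt x x' τ) :
    HasDerivAt (fun σ => lin (s σ) 0 0 1 (x σ)) ⟨s' * (x τ).re + s τ * x'.re, x'.im⟩ τ := by
  have e : (fun σ => lin (s σ) 0 0 1 (x σ)) = fun σ =>
      (((s σ + 1 : ℝ) : ℂ) * x σ + ((s σ - 1 : ℝ) : ℂ) * (starRingEnd ℂ) (x σ)) / 2 := by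
    funext σ; rw [lin_diag]; ring
  have h2 : HasDerivAt (fun σ => (starRingEnd ℂ) (x σ)) ((starRingEnd ℂ) x') τ := hx.star
  rw [e]
  refine HasDerivAt.congr_deriv
    ((((hs.add_const 1).ofReal_comp.mul hx).add ((hs.sub_const 1).ofReal_comp.mul h2)).div_const 2) ?_
  apply Complex.ext <;> simp <;> ring

theorem fderiv_Phi {t r ρ' s' : ℝ} (ht : 0 < t) (hr : 0 < r) (h1 : 1 - t ^ 2 < r ^ 2) {n j : ℂ}
    (hd : det n j = 1) (hρ : HasDerivAt (rho t) ρ' r) (hs : HasDerivAt (sc t) s' r) (r' b u v : ℝ) :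
    fderiv ℝ (Phi t) (psi r n j) (dpsi r n j r' (lin b u v (-b) n) (lin b u v (-b) j)) =
      dpsi (rho t r / sc t r) (lin (sc t r) 0 0 1 n) (lin (sc t r) 0 0 1 j)
        ((ρ' * sc t r - rho t r * s') / sc t r ^ 2 * r')
        (lin (s' * r' / sc t r + b) (sc t r * u) (v / sc t r) (-b) (lin (sc t r) 0 0 1 n))
        (lin (s' * r' / sc t r + b) (sc t r * u) (v / sc t r) (-b) (lin (sc t r) 0 0 1 j)) := by
  have hd0 : 0 < det n j := by rw [hd]; exact one_pos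
  have hj := ne_zero_of_det hd0
  have hs0 := sc_pos ht hr
  have hN : ∀ x : ℂ, HasDerivAt (fun τ : ℝ => x + τ * lin b u v (-b) x) (lin b u v (-b) x) 0 := fun x => by
    simpa using ((hasDerivAt_id (0 : ℝ)).ofReal_comp.mul_const (lin b u v (-b) x)).const_add x
  have hDe : ∀ τ : ℝ, det (n + τ * lin b u v (-b) n) (j + τ * lin b u v (-b) j) = 1 - τ ^ 2 * (b ^ 2 + u * v) := by
    intro τ
    have : det (n + τ * lin b u v (-b) n) (j + τ * lin b u v (-b) j) = (1 - τ ^ 2 * (b ^ 2 + u * v)) * det n j := by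
      simp [det, lin_re, lin_im]; ring
    rw [this, hd, mul_one]
  have hD : HasDerivAt (fun τ : ℝ => 1 - τ ^ 2 * (b ^ 2 + u * v)) 0 0 := by
    simpa using (((hasDerivAt_id (0 : ℝ)).pow 2).mul_const (b ^ 2 + u * v)).const_sub 1
  have hR : HasDerivAt (fun τ : ℝ => r + τ * r') r' 0 := by
    simpa using ((hasDerivAt_id (0 : ℝ)).mul_const r').const_add r
  have hq : HasDerivAt (fun τ : ℝ => (r + τ * r') / (1 - τ ^ 2 * (b ^ 2 + u * v))) r' 0 :=
    HasDerivAt.congr_deriv (hR.div hD (by simp)) (by simp)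
  have hc := hasDerivAt_dpsi hq (hN n) (hN j) (by simpa using hj)
  have hw : psi r n j ∈ dom t := ⟨psi_mem r hd0, by rw [kin_psi r hd]; positivity, by rw [kin_psi r hd]; exact h1⟩
  have hP : HasFDerivAt (Phi t) (fderiv ℝ (Phi t) (psi r n j))
      (psi ((r + 0 * r') / (1 - 0 ^ 2 * (b ^ 2 + u * v))) (n + (0 : ℝ) * lin b u v (-b) n)
        (j + (0 : ℝ) * lin b u v (-b) j)) := by
    simpa using ((contDiffAt_Phi ht hw).differentiableAt (by simp)).hasFDerivAt
  have hA := hP.comp_hasDerivAt (0 : ℝ) hc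
  have hρ2 : HasDerivAt (fun τ : ℝ => rho t (r + τ * r')) (ρ' * r') 0 :=
    HasDerivAt.comp (h₂ := rho t) (0 : ℝ) (by simpa using hρ) hR
  have hs2 : HasDerivAt (fun τ : ℝ => sc t (r + τ * r')) (s' * r') 0 :=
    HasDerivAt.comp (h₂ := sc t) (0 : ℝ) (by simpa using hs) hR
  have hq2 := hρ2.div (hD.mul hs2) (by simpa using hs0.ne')
  have hj2 : lin (sc t r) 0 0 1 j ≠ 0 :=
    ne_zero_of_det (n := lin (sc t r) 0 0 1 n) (by rw [det_diag, hd, mul_one]; exact hs0)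
  have hB := hasDerivAt_dpsi hq2 (hasDerivAt_diag hs2 (hN n)) (hasDerivAt_diag hs2 (hN j)) (by simpa using hj2)
  have ev1 : ∀ᶠ τ in 𝓝 (0 : ℝ), 0 < 1 - τ ^ 2 * (b ^ 2 + u * v) := hD.continuousAt.eventually (lt_mem_nhds (by simp))
  have ev2 : ∀ᶠ τ in 𝓝 (0 : ℝ), 0 < r + τ * r' := hR.continuousAt.eventually (lt_mem_nhds (by simpa using hr))
  have hC := hA.unique (hB.congr_of_eventuallyEq (by
    filter_upwards [ev1, ev2] with τ e1 e2
    have e3 : (1 - τ ^ 2 * (b ^ 2 + u * v)) * ((r + τ * r') / (1 - τ ^ 2 * (b ^ 2 + u * v))) = r + τ * r' := by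
      field_simp
    simp only [Function.comp]
    rw [Phi_psi ht (div_pos e2 e1) (by rw [hDe]; exact e1), hDe, e3]
    rfl))
  have e4 : ∀ x : ℂ, (⟨s' * r' * x.re + sc t r * (lin b u v (-b) x).re, (lin b u v (-b) x).im⟩ : ℂ) =
      lin (s' * r' / sc t r + b) (sc t r * u) (v / sc t r) (-b) (lin (sc t r) 0 0 1 x) := fun x => by
    apply Complex.ext <;> simp only [lin_re, lin_im] <;> field_simp <;> ring
  simp only [zero_mul, add_zero, ofReal_zero, Pi.div_apply, Pi.mul_apply, ne_eq, OfNat.ofNat_ne_zero,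
    not_false_eq_true, zero_pow, sub_zero, div_one, one_mul, zero_add, e4] at hC
  rw [hC]
  congr 1
  ring

theorem hasDerivAt_rho {t r : ℝ} (ht : 0 < t) (h1 : 1 - t ^ 2 < r ^ 2) :
    HasDerivAt (rho t) (r / (t ^ 2 * rho t r)) r := by
  have h2 : HasDerivAt (fun r : ℝ => 1 + (r ^ 2 - 1) / t ^ 2) (2 * r / t ^ 2) r := by
    simpa using ((((hasDerivAt_id r).pow 2).sub_const 1).div_const (t ^ 2)).const_add 1
  have h3 := rho_pos ht h1
  refine HasDerivAt.congr_deriv (h2.sqrt (arg_pos ht h1).ne') ?_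
  show _ / (2 * rho t r) = _
  field_simp

theorem hasDerivAt_sc {t r ρ' : ℝ} (ht : 0 < t) (hρ : HasDerivAt (rho t) ρ' r) :
    HasDerivAt (sc t) ((1 / t - sc t r * ρ') / (rho t r + 1)) r := by
  have h3 := rho_nonneg t r
  refine HasDerivAt.congr_deriv (((hasDerivAt_id' r).add_const 1).div ((hρ.add_const 1).const_mul t)
    (by positivity)) ?_
  unfold sc
  field_simp

theorem omega_Phi {t : ℝ} (ht : 0 < t) {w : ℂ × ℂ} (hw : w ∈ dom t) (X Y : ℂ × ℂ) :
    t * omega (Phi t w) (fderiv ℝ (Phi t) w X) (fderiv ℝ (Phi t) w Y) = omega w X Y := by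
  obtain ⟨r, n, j, hr, h1, hd, rfl⟩ := exists_frame hw
  obtain ⟨r₁, b₁, u₁, v₁, rfl⟩ := exists_dpsi hr hd X
  obtain ⟨r₂, b₂, u₂, v₂, rfl⟩ := exists_dpsi hr hd Y
  have hρ := hasDerivAt_rho ht h1
  have hs := hasDerivAt_sc ht hρ
  have hs0 := sc_pos ht hr
  have hρ0 := rho_pos ht h1
  have hρ2 := rho_sq ht h1
  rw [fderiv_Phi ht hr h1 hd hρ hs, fderiv_Phi ht hr h1 hd hρ hs, Phi_psi_one ht hr hd,
    omega_lin _ (by rw [det_diag, hd, mul_one]; exact hs0), omega_lin _ (by rw [hd]; exact one_pos), det_diag, hd]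
  have k1 : t * sc t r * (rho t r + 1) = r + 1 := by unfold sc; field_simp
  have k2 : t * (rho t r - 1) = sc t r * (r - 1) := by
    have : (rho t r + 1) * (t * (t * (rho t r - 1) - sc t r * (r - 1))) = 0 := by
      have h5 : t ^ 2 * (rho t r ^ 2 - 1) = r ^ 2 - 1 := by rw [hρ2]; field_simp; ring
      linear_combination h5 - (r - 1) * k1
    rcases mul_eq_zero.1 this with h | h
    · exact absurd h (by positivity)
    · rcases mul_eq_zero.1 h with h | h
      · exact absurd h ht.ne'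
      · linarith
  generalize hρ' : r / (t ^ 2 * rho t r) = ρ'
  generalize hs' : (1 / t - sc t r * ρ') / (rho t r + 1) = s'
  have k3 : t * (sc t r * ρ' + (rho t r + 1) * s') = 1 := by rw [← hs']; field_simp; ring
  have k4 : t ^ 2 * rho t r * ρ' = r := by rw [← hρ']; field_simp
  generalize sc t r = s at *
  generalize rho t r = ρ at *
  have k5 : t * (ρ' * s - (ρ - 1) * s') = s ^ 2 := by
    have : (ρ + 1) * (t * (t * (ρ' * s - (ρ - 1) * s') - s ^ 2)) = 0 := by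
      linear_combination (2 * s) * k4 - (t * (ρ - 1)) * k3 - k2 - s * k1
    rcases mul_eq_zero.1 this with h | h
    · exact absurd h (by positivity)
    · rcases mul_eq_zero.1 h with h | h
      · exact absurd h ht.ne'
      · linarith
  field_simp
  linear_combination (s ^ 2 * (r₁ * u₂ - r₂ * u₁)) * k3 + (r₁ * v₂ - r₂ * v₁) * k5 +
    (2 * s ^ 2 * (b₁ * u₂ - b₂ * u₁)) * k1 + (2 * s * (v₁ * b₂ - v₂ * b₁)) * k2

end Pool.Agent.HZ64
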