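import Pool.Agent.MP_6c7bdb_gt.FI.Conf

namespace Pool.Agent.HZ64

open scoped MatrixGroups ContDiff
open Complex Filter Topology

theorem omega_zero (w v : ℂ × ℂ) : omega w 0 v = 0 := by simp [omega]

theorem fderiv_Phi_inj {t : ℝ} (ht : 0 < t) {w : ℂ × ℂ} (hw : w ∈ dom t) :
    Function.Injective (fderiv ℝ (Phi t) w) := fun X Y h =>
  omega_inj (w := w) fun v => by rw [← omega_Phi ht hw X v, ← omega_Phi ht hw Y v, h]

theorem fderiv_Phi_surj {t : ℝ} (ht : 0 < t) {w : ℂ × ℂ} (hw : w ∈ dom t) :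
    Function.Surjective (fderiv ℝ (Phi t) w) :=
  (LinearMap.injective_iff_surjective (f := (fderiv ℝ (Phi t) w : ℂ × ℂ →ₗ[ℝ] ℂ × ℂ))).1 (fderiv_Phi_inj ht hw)

/-- An orbit that meets an open set on which the function is constant is a constant orbit. -/
theorem orbit_const {G : ℂ × ℂ → ℝ} {O : Set (ℂ × ℂ)} (hO : IsOpen O) {k : ℝ} (hG : ∀ x ∈ O, G x = k)
    {w : ℝ → ℂ × ℂ} (hw : IsOrbit G w) {s : ℝ} (hs : w s ∈ O) (τ : ℝ) : w τ = w s := by
  have hd : Differentiable ℝ w := fun σ => (hw σ).2.choose_spec.1.differentiableAt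
  have hz : ∀ σ, w σ ∈ O → deriv w σ = 0 := fun σ hσ => by
    obtain ⟨-, X, h1, h2⟩ := hw σ
    have h3 : fderiv ℝ G (w σ) = 0 := by
      have : G =ᶠ[𝓝 (w σ)] fun _ => k := by filter_upwards [hO.mem_nhds hσ] with x hx using hG x hx
      rw [this.fderiv_eq]; simp
    rw [h1.deriv]
    exact omega_inj (w := w σ) fun v => by rw [h2 v, h3, omega_zero]; simp
  have hcl : IsClopen {σ | w σ = w s} := by
    refine ⟨isClosed_eq hd.continuous continuous_const, Metric.isOpen_iff.2 fun σ hσ => ?_⟩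
    have hσ' : w σ = w s := hσ
    obtain ⟨ε, hε, hb⟩ := Metric.isOpen_iff.1 (hO.preimage hd.continuous) σ (by show w σ ∈ O; rw [hσ']; exact hs)
    refine ⟨ε, hε, fun x hx => ?_⟩
    have := Metric.isOpen_ball.is_const_of_deriv_eq_zero (convex_ball σ ε).isPreconnected hd.differentiableOn
      (fun y hy => hz y (hb hy)) hx (Metric.mem_ball_self hε)
    show w x = w s
    rw [this, hσ']
  have := hcl.eq_univ ⟨s, rfl⟩
  exact (Set.eq_univ_iff_forall.1 this) τ

theorem exists_kin {x : ℝ} (hx : 0 ≤ x) : ∃ w ∈ phase, kin w = x := by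
  have hd : det I 1 = 1 := by simp [det]
  exact ⟨psi (√x) I 1, psi_mem _ (by rw [hd]; exact one_pos), by rw [kin_psi _ hd, Real.sq_sqrt hx]⟩

theorem scale {Γ : Subgroup SL(2, ℝ)} {a η k c t : ℝ} {F : ℂ × ℂ → ℝ} (hη : 0 < η) (ha : η < a) (ht : 0 < t)
    (htη : t ^ 2 * (1 - η) < 1) (hA : Admissible Γ a F c) (hk : ∀ w ∈ phase, kin w < η → F w = k) :
    ∃ G : ℂ × ℂ → ℝ, Admissible Γ (1 + t ^ 2 * (a - 1)) G (t * c) ∧
      ∀ w ∈ phase, kin w < 1 + t ^ 2 * (η - 1) → G w = t * k := by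
  classical
  obtain ⟨h, hh⟩ : ∃ h, h = 1 + t ^ 2 * (η - 1) := ⟨_, rfl⟩
  have ht2 : 0 < t ^ 2 := by positivity
  have h0 : 0 < h := by rw [hh]; linarith
  have h1 : 1 - t ^ 2 < h := by rw [hh]; nlinarith
  obtain ⟨G, hG⟩ : ∃ G : ℂ × ℂ → ℝ, G = fun w => if kin w < h then t * k else t * F (Phi t w) := ⟨_, rfl⟩
  have G1 : ∀ w, kin w < h → G w = t * k := fun w hw => by rw [hG]; exact if_pos hw
  have hdom : ∀ w ∈ phase, h ≤ kin w → w ∈ dom t := fun w hw hle => ⟨hw, by linarith, by linarith⟩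
  have kinP : ∀ w ∈ dom t, t ^ 2 * (kin (Phi t w) - 1) = kin w - 1 := fun w hw => by
    rw [(Phi_mem ht hw).2]; field_simp; ring
  have G2 : ∀ w ∈ dom t, G w = t * F (Phi t w) := fun w hw => by
    by_cases hlt : kin w < h
    · rw [G1 w hlt, hk _ (Phi_mem ht hw).1]
      have := kinP w hw
      by_contra hc
      push Not at hc
      nlinarith
    · rw [hG]; exact if_neg hlt
  have G3 : ∀ w ∈ dom t, G =ᶠ[𝓝 w] fun x => t * F (Phi t x) := fun w hw => by
    filter_upwards [(isOpen_dom t).mem_nhds hw] with x hx using G2 x hx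
  have hF : ∀ w ∈ phase, ContDiffAt ℝ ∞ F w := fun w hw => hA.smooth.contDiffAt (isOpen_phase.mem_nhds hw)
  obtain ⟨w₀, hw₀, hk₀⟩ := exists_kin (le_refl 0)
  have k0 : 0 ≤ k := by rw [← hk w₀ hw₀ (by rw [hk₀]; exact hη)]; exact hA.nonneg _ hw₀
  have kc : k ≤ c := by rw [← hk w₀ hw₀ (by rw [hk₀]; exact hη)]; exact hA.le_max _ hw₀
  obtain ⟨b₀, hb₀, hF0⟩ := hA.support
  obtain ⟨b, hba, hηb, hFb⟩ : ∃ b, b < a ∧ η ≤ b ∧ ∀ w ∈ phase, b ≤ kin w → F w = 0 :=
    ⟨max b₀ η, max_lt hb₀ ha, le_max_right _ _, fun w hw hle => hF0 w hw ((le_max_left _ _).trans hle)⟩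
  have hb1 : 1 + t ^ 2 * (b - 1) < 1 + t ^ 2 * (a - 1) := by nlinarith
  have hb2 : h ≤ 1 + t ^ 2 * (b - 1) := by rw [hh]; nlinarith
  have Gz : ∀ w ∈ phase, 1 + t ^ 2 * (b - 1) ≤ kin w → G w = 0 := fun w hw hle => by
    have hd := hdom w hw (hb2.trans hle)
    rw [G2 w hd, hFb _ (Phi_mem ht hd).1, mul_zero]
    have := kinP w hd
    by_contra hc
    push Not at hc
    nlinarith
  have hOlt : IsOpen {w : ℂ × ℂ | kin w < h} := isOpen_lt contDiff_kin.continuous continuous_const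
  refine ⟨G, ⟨fun w hw => ContDiffAt.contDiffWithinAt ?_, fun γ hγ w hw => ?_, fun w hw => ?_, ⟨_, hb1, Gz⟩, ?_,
    fun w hw => ?_, ?_, fun w hw T hT hT1 γ hγ hper τ => ?_⟩, fun w _ hlt => G1 w (by rw [hh]; exact hlt)⟩
  · by_cases hlt : kin w < h
    · refine (contDiffAt_const (c := t * k)).congr_of_eventuallyEq ?_
      filter_upwards [hOlt.mem_nhds hlt] with x hx using G1 x hx
    · have hd := hdom w hw (not_lt.1 hlt)
      exact (contDiffAt_const.mul (ContDiffAt.comp (g := F) (f := Phi t) w (hF _ (Phi_mem ht hd).1)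
        (contDiffAt_Phi ht hd))).congr_of_eventuallyEq (G3 w hd)
  · by_cases hlt : kin w < h
    · rw [G1 w hlt, G1 _ (by rw [(act_mem γ hw).2]; exact hlt)]
    · have hd := hdom w hw (not_lt.1 hlt)
      rw [G2 w hd, G2 _ (act_dom γ hd), Phi_act ht γ hd, hA.invariant γ hγ _ (Phi_mem ht hd).1]
  · by_cases hlt : kin w < h
    · rw [G1 w hlt]; positivity
    · have hd := hdom w hw (not_lt.1 hlt)
      rw [G2 w hd]
      exact mul_nonneg ht.le (hA.nonneg _ (Phi_mem ht hd).1)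
  · refine ⟨phase ∩ ({w | 1 + t ^ 2 * (b - 1) < kin w} ∩ {w | kin w < 1 + t ^ 2 * (a - 1)}),
      isOpen_phase.inter ((isOpen_lt continuous_const contDiff_kin.continuous).inter
        (isOpen_lt contDiff_kin.continuous continuous_const)), ?_, fun w hw => ⟨hw.1, hw.2.2, Gz w hw.1 hw.2.1.le⟩⟩
    obtain ⟨x, hx1, hx2⟩ := exists_between hb1
    obtain ⟨w, hw, hkw⟩ := exists_kin (x := x) (by linarith)
    exact ⟨w, hw, by show _ < kin w; rw [hkw]; exact hx1, by show kin w < _; rw [hkw]; exact hx2⟩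
  · by_cases hlt : kin w < h
    · rw [G1 w hlt]; exact mul_le_mul_of_nonneg_left kc ht.le
    · have hd := hdom w hw (not_lt.1 hlt)
      rw [G2 w hd]
      exact mul_le_mul_of_nonneg_left (hA.le_max _ (Phi_mem ht hd).1) ht.le
  · rcases kc.eq_or_lt with rfl | hlt
    · refine ⟨phase ∩ {w | kin w < h}, isOpen_phase.inter hOlt, ⟨w₀, hw₀, by show kin w₀ < h; rw [hk₀]; exact h0⟩,
        fun w hw => ⟨hw.1, ?_, G1 w hw.2⟩⟩
      have : kin w < h := hw.2
      linarith
    · obtain ⟨V, hV, ⟨x, hx⟩, hVc⟩ := hA.plateau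
      have hcont : ContinuousOn (Phi t) (dom t) := fun w hw => (contDiffAt_Phi ht hw).continuousAt.continuousWithinAt
      refine ⟨dom t ∩ Phi t ⁻¹' V, hcont.isOpen_inter_preimage (isOpen_dom t) hV, ?_, fun w hw => ⟨hw.1.1, ?_, ?_⟩⟩
      · obtain ⟨e1, -, e3⟩ := hVc x hx
        have e4 : η ≤ kin x := by
          by_contra hc
          rw [hk x e1 (not_le.1 hc)] at e3
          exact hlt.ne e3
        obtain ⟨y, hy, e5⟩ := Phi_surj ht e1 (by linarith) (by rw [hh] at h0; nlinarith)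
        exact ⟨y, hy, by show Phi t y ∈ V; rw [e5]; exact hx⟩
      · have e1 := (hVc _ hw.2).2.1
        have := kinP w hw.1
        nlinarith
      · rw [G2 w hw.1, (hVc _ hw.2).2.2]
  · by_cases hex : ∃ s, kin (w s) < h
    · obtain ⟨s, hs⟩ := hex
      rw [orbit_const hOlt G1 hw hs τ, orbit_const hOlt G1 hw hs 0]
    · push Not at hex
      have hd : ∀ s, w s ∈ dom t := fun s => hdom _ (hw s).1 (hex s)
      have hP : ∀ s, HasFDerivAt (Phi t) (fderiv ℝ (Phi t) (w s)) (w s) := fun s =>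
        ((contDiffAt_Phi ht (hd s)).differentiableAt (by simp)).hasFDerivAt
      have horb : IsOrbit F (fun s => Phi t (w s)) := fun s => by
        obtain ⟨-, X, e1, e2⟩ := hw s
        have hm := (Phi_mem ht (hd s)).1
        refine ⟨hm, fderiv ℝ (Phi t) (w s) X, (hP s).comp_hasDerivAt s e1, fun v => ?_⟩
        obtain ⟨Y, rfl⟩ := fderiv_Phi_surj ht (hd s) v
        have e3 := (((hF _ hm).differentiableAt (by simp)).hasFDerivAt.comp (w s) (hP s)).const_mul t
        have e4 := (e3.congr_of_eventuallyEq (G3 _ (hd s))).fderiv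
        have e5 := omega_Phi ht (hd s) X Y
        rw [e2 Y, e4] at e5
        apply mul_left_cancel₀ ht.ne'
        rw [e5]
        simp
      have hc := hA.slow _ horb T hT hT1 γ hγ (fun s => by rw [hper s, Phi_act ht γ (hd s)])
      have hdiff : Differentiable ℝ w := fun σ => (hw σ).2.choose_spec.1.differentiableAt
      refine is_const_of_deriv_eq_zero hdiff (fun s => ?_) τ 0
      have e1 := (hP s).comp_hasDerivAt s (hdiff s).hasDerivAt
      have e2 : (Phi t ∘ w) = fun _ => Phi t (w 0) := funext hc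
      rw [e2] at e1
      apply fderiv_Phi_inj ht (hd s)
      rw [e1.unique (hasDerivAt_const s _), map_zero]

end Pool.Agent.HZ64
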