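import Pool.Agent.MP_6c7bdb_gt.FI.Upper
import Pool.Agent.MP_6c7bdb_gt.FI.Scale

namespace Pool.Agent.HZ64

open scoped MatrixGroups ContDiff Topology
open Complex Set Filter

theorem exists_flat {p q c c' : ℝ} (hpq : p ≤ q) (h0 : 0 ≤ c') (hc : c' < c - (q - p)) :
    ∃ (χ : ℝ → ℝ) (k : ℝ), ContDiff ℝ ∞ χ ∧ χ 0 = 0 ∧ χ c = c' ∧ (∀ x, 0 ≤ deriv χ x ∧ deriv χ x ≤ 1) ∧
      ∀ x, p ≤ x → x ≤ q → χ x = k := by
  obtain ⟨ε, hε, hεc⟩ : ∃ ε : ℝ, 0 < ε ∧ c' < c - (q - p) - 4 * ε := ⟨(c - (q - p) - c') / 8, by linarith, by linarith⟩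
  let β : ContDiffBump ((p + q) / 2) := ⟨(q - p) / 2 + ε, (q - p) / 2 + 2 * ε, by linarith, by linarith⟩
  have hb : Continuous β := β.continuous
  have hz : ∀ u, u ≤ p - 2 * ε ∨ q + 2 * ε ≤ u → β u = 0 := by
    intro u hu
    apply β.zero_of_le_dist
    show (q - p) / 2 + 2 * ε ≤ dist u ((p + q) / 2)
    rw [Real.dist_eq]
    rcases hu with hu | hu
    · exact le_abs.2 (Or.inr (by linarith))
    · exact le_abs.2 (Or.inl (by linarith))
  have ho : ∀ u, p ≤ u → u ≤ q → β u = 1 := by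
    intro u h1 h2
    apply β.one_of_mem_closedBall
    show dist u ((p + q) / 2) ≤ (q - p) / 2 + ε
    rw [Real.dist_eq, abs_le]
    constructor <;> linarith
  let θ : ℝ → ℝ := fun x => ∫ u in (0 : ℝ)..x, β u
  have hd : ∀ x, HasDerivAt θ (β x) x := fun x => (hb.integral_hasStrictDerivAt 0 x).hasDerivAt
  have hdd : deriv θ = β := funext fun x => (hd x).deriv
  have hdiff : Differentiable ℝ θ := fun x => (hd x).differentiableAt
  have hθ : ContDiff ℝ ∞ θ := by rw [contDiff_infty_iff_deriv, hdd]; exact ⟨hdiff, β.contDiff⟩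
  have hmono : Monotone θ := monotone_of_deriv_nonneg hdiff (fun x => by rw [hdd]; exact β.nonneg)
  have hd2 : ∀ x, HasDerivAt (fun x => x - θ x) (1 - β x) x := fun x => (hasDerivAt_id' x).sub (hd x)
  have hmono2 : Monotone fun x => x - θ x := monotone_of_deriv_nonneg (fun x => (hd2 x).differentiableAt)
    (fun x => by rw [(hd2 x).deriv]; linarith [β.le_one (x := x)])
  have hsub : ∀ x y, θ y - θ x = ∫ u in x..y, β u := fun x y =>
    intervalIntegral.integral_interval_sub_left (hb.intervalIntegrable _ _) (hb.intervalIntegrable _ _)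
  have hconst : ∀ (x y e : ℝ), (∀ u ∈ uIcc x y, β u = e) → θ y - θ x = (y - x) * e := fun x y e h => by
    rw [hsub, intervalIntegral.integral_congr (g := fun _ => e) h]; simp
  have t0 : θ 0 = 0 := by simp [θ]
  have t1 : θ c ≤ θ (q + 2 * ε) := by
    rcases le_total c (q + 2 * ε) with h | h
    · exact hmono h
    · have := hconst (q + 2 * ε) c 0 fun u hu => hz u (Or.inr (le_trans (le_min le_rfl h) hu.1))
      linarith
  have t2 : θ (p - 2 * ε) ≤ θ 0 := by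
    rcases le_total (p - 2 * ε) 0 with h | h
    · exact hmono h
    · have := hconst 0 (p - 2 * ε) 0 fun u hu => hz u (Or.inl (le_trans hu.2 (max_le h le_rfl)))
      linarith
  have t3 : p - 2 * ε - θ (p - 2 * ε) ≤ q + 2 * ε - θ (q + 2 * ε) := hmono2 (by linarith)
  have t4 : c' < c - θ c := by linarith
  have t5 : 0 < c - θ c := by linarith
  have hm0 : 0 ≤ c' / (c - θ c) := by positivity
  have hm1 : c' / (c - θ c) ≤ 1 := (div_le_one t5).2 t4.le
  refine ⟨fun x => c' / (c - θ c) * (x - θ x), c' / (c - θ c) * (p - θ p), contDiff_const.mul (contDiff_id.sub hθ),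
    by simp [t0], by field_simp, fun x => ?_, fun x h1 h2 => ?_⟩
  · rw [((hd2 x).const_mul _).deriv]
    have e1 := β.nonneg (x := x)
    have e2 := β.le_one (x := x)
    constructor <;> nlinarith
  · have := hconst p x 1 fun u hu => by
      rw [uIcc_of_le h1] at hu
      exact ho u hu.1 (hu.2.trans h2)
    show _ * (x - θ x) = _
    congr 1
    linarith

theorem omega_self (w X : ℂ × ℂ) : omega w X X = 0 := by simp [omega]

theorem omega_smul (w X v : ℂ × ℂ) (μ : ℝ) : omega w (μ • X) v = μ * omega w X v := by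
  simp [omega]; ring

theorem Admissible.cut {Γ : Subgroup SL(2, ℝ)} {a c : ℝ} {F : ℂ × ℂ → ℝ} (hA : Admissible Γ a F c) {χ : ℝ → ℝ}
    (hχ : ContDiff ℝ ∞ χ) (h0 : χ 0 = 0) (hd : ∀ x, 0 ≤ deriv χ x ∧ deriv χ x ≤ 1) :
    Admissible Γ a (fun w => χ (F w)) (χ c) := by
  have hdiff : Differentiable ℝ χ := hχ.differentiable (by simp)
  have hmono : Monotone χ := monotone_of_deriv_nonneg hdiff fun x => (hd x).1
  obtain ⟨b, hb, hFb⟩ := hA.support
  obtain ⟨V, hV, hVn, hV0⟩ := hA.zero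
  obtain ⟨W, hW, hWn, hWc⟩ := hA.plateau
  refine ⟨hχ.comp_contDiffOn hA.smooth, fun γ hγ w hw => by rw [hA.invariant γ hγ w hw], fun w hw => ?_,
    ⟨b, hb, fun w hw hle => by rw [hFb w hw hle, h0]⟩,
    ⟨V, hV, hVn, fun w hw => ⟨(hV0 w hw).1, (hV0 w hw).2.1, by rw [(hV0 w hw).2.2, h0]⟩⟩,
    fun w hw => hmono (hA.le_max w hw),
    ⟨W, hW, hWn, fun w hw => ⟨(hWc w hw).1, (hWc w hw).2.1, by rw [(hWc w hw).2.2]⟩⟩,
    fun w hw T hT hT1 γ hγ hper τ => ?_⟩
  · rw [← h0]; exact hmono (hA.nonneg w hw)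
  · have hw' : ∀ s, ∃ X, HasDerivAt w X s ∧ ∀ v, omega (w s) X v = -(deriv χ (F (w s)) * fderiv ℝ F (w s) v) := by
      intro s
      obtain ⟨hm, X, e1, e2⟩ := hw s
      refine ⟨X, e1, fun v => ?_⟩
      have := ((hdiff (F (w s))).hasDerivAt.comp_hasFDerivAt (w s) (hA.differentiableAt hm).hasFDerivAt).fderiv
      rw [e2 v]
      exact congrArg (fun L : ℂ × ℂ →L[ℝ] ℝ => -L v) this
    have hz : ∀ s X, (∀ v, omega (w s) X v = -(deriv χ (F (w s)) * fderiv ℝ F (w s) v)) →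
        deriv χ (F (w s)) = 0 → X = 0 := fun s X h h1 =>
      omega_inj (w := w s) fun v => by rw [h v, h1, omega_zero]; simp
    have hFc : ∀ s, HasDerivAt (fun s => F (w s)) 0 s := by
      intro s
      obtain ⟨X, e1, e2⟩ := hw' s
      refine HasDerivAt.congr_deriv ((hA.differentiableAt (hw s).1).hasFDerivAt.comp_hasDerivAt s e1) ?_
      by_cases h1 : deriv χ (F (w s)) = 0
      · rw [hz s X e2 h1, map_zero]
      · have := e2 X
        rw [omega_self] at this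
        exact (mul_eq_zero.1 (neg_eq_zero.1 this.symm)).resolve_left h1
    have hFk : ∀ s, F (w s) = F (w 0) := fun s =>
      is_const_of_deriv_eq_zero (fun s => (hFc s).differentiableAt) (fun s => (hFc s).deriv) s 0
    obtain ⟨μ, hμ⟩ : ∃ μ, μ = deriv χ (F (w 0)) := ⟨_, rfl⟩
    have hμ0 : 0 ≤ μ := hμ ▸ (hd _).1
    have hμ1 : μ ≤ 1 := hμ ▸ (hd _).2
    rcases hμ0.eq_or_lt with h | h
    · refine is_const_of_deriv_eq_zero (fun s => (hw' s).choose_spec.1.differentiableAt) (fun s => ?_) τ 0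
      obtain ⟨X, e1, e2⟩ := hw' s
      rw [e1.deriv, hz s X e2 (by rw [hFk s, ← hμ, h])]
    · have horb : IsOrbit F (fun s => w (μ⁻¹ * s)) := fun s => by
        obtain ⟨X, e1, e2⟩ := hw' (μ⁻¹ * s)
        have e3 : HasDerivAt (fun s : ℝ => μ⁻¹ * s) μ⁻¹ s := by simpa using (hasDerivAt_id s).const_mul μ⁻¹
        refine ⟨(hw _).1, μ⁻¹ • X, e1.scomp s e3, fun v => ?_⟩
        rw [omega_smul, e2 v, hFk, ← hμ]
        field_simp
      have := hA.slow _ horb (μ * T) (by positivity) (by nlinarith) γ hγ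
        (fun s => by rw [← hper, mul_add, inv_mul_cancel_left₀ h.ne']) (μ * τ)
      simpa [inv_mul_cancel_left₀ h.ne'] using this

theorem exists_collar {Γ : Subgroup SL(2, ℝ)} (hΓ : IsSurfaceGroup Γ) {a c η u v ε : ℝ} {F : ℂ × ℂ → ℝ}
    (hA : Admissible Γ a F c) (ha : η < a) (hε : 0 < ε)
    (huv : ∀ w ∈ phase, kin w ≤ η → u ≤ F w ∧ F w ≤ v) :
    ∃ η', η < η' ∧ η' < a ∧ ∀ w ∈ phase, kin w < η' → u - ε ≤ F w ∧ F w ≤ v + ε := by
  obtain ⟨K, hK, hKd, hcov⟩ := exists_frames hΓ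
  have hd0 : ∀ q ∈ K, 0 < det q.1 q.2 := fun q hq => by rw [hKd q hq]; exact one_pos
  have hQ : IsCompact (Icc 0 (√a) ×ˢ K) := isCompact_Icc.prod hK
  have hc : ContinuousOn (fun x : ℝ × ℂ × ℂ => F (psi x.1 x.2.1 x.2.2)) (Icc 0 (√a) ×ˢ K) := fun x hx =>
    (ContinuousAt.comp (g := F) (f := fun x : ℝ × ℂ × ℂ => psi x.1 x.2.1 x.2.2)
      (hA.contDiffAt (psi_mem _ (hd0 _ hx.2))).continuousAt
      (continuousAt_psi (ne_zero_of_det (hd0 _ hx.2)))).continuousWithinAt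
  have hS : IsCompact ((Icc 0 (√a) ×ˢ K) ∩ (fun x : ℝ × ℂ × ℂ => F (psi x.1 x.2.1 x.2.2)) ⁻¹' (Ioo (u - ε) (v + ε))ᶜ) :=
    hQ.of_isClosed_subset (hc.preimage_isClosed_of_isClosed hQ.isClosed isOpen_Ioo.isClosed_compl) inter_subset_left
  obtain ⟨m, hm, hmS⟩ : ∃ m, η < m ∧ ∀ x ∈ (Icc 0 (√a) ×ˢ K) ∩
      (fun x : ℝ × ℂ × ℂ => F (psi x.1 x.2.1 x.2.2)) ⁻¹' (Ioo (u - ε) (v + ε))ᶜ, m ≤ x.1 ^ 2 :=
    hS.exists_forall_le' (f := fun x : ℝ × ℂ × ℂ => x.1 ^ 2) (by fun_prop) fun x hx => by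
      by_contra hle
      have := huv _ (psi_mem x.1 (hd0 _ hx.1.2)) (by rw [kin_psi _ (hKd _ hx.1.2)]; exact not_lt.1 hle)
      exact hx.2 ⟨by linarith, by linarith⟩
  obtain ⟨η', h1, h2⟩ := exists_between (lt_min hm ha)
  refine ⟨η', h1, h2.trans_le (min_le_right _ _), fun w hw hlt => ?_⟩
  have hk : kin w = √(kin w) ^ 2 := (Real.sq_sqrt (kin_nonneg w)).symm
  obtain ⟨n, j, hd, e⟩ := exists_psi hw (Real.sqrt_nonneg _) hk
  obtain ⟨γ, hγ, hq⟩ := hcov n j hd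
  have h3 : F w ∈ Ioo (u - ε) (v + ε) := by
    by_contra hn
    have := hmS (√(kin w), gn γ n j, gj γ n j) ⟨⟨⟨Real.sqrt_nonneg _, Real.sqrt_le_sqrt
      (by linarith [min_le_right m a])⟩, hq⟩, by
        show F (psi (√(kin w)) (gn γ n j) (gj γ n j)) ∉ _
        rw [hA.frame_inv hγ _ hd, ← e]; exact hn⟩
    simp only [← hk] at this
    linarith [min_le_left m a]
  exact ⟨h3.1.le, h3.2.le⟩

end Pool.Agent.HZ64
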