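import Mathlib

/-!
The twisted cotangent bundle of a closed hyperbolic surface in the upper half plane model, admissible functions and
first integrals of the magnetic flow.
-/

namespace Pool.Agent.HZ64

open scoped MatrixGroups ContDiff

/-- The cotangent bundle of the upper half plane: a point `(z, p)` has `z = x + i y` with `y > 0` and stands for the
covector `p.re dx + p.im dy` at `z`. -/
def phase : Set (ℂ × ℂ) := {w | 0 < w.1.im}

/-- The kinetic energy `H = |p|^2` of the metric `(dx^2 + dy^2) / y^2`. -/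
def kin (w : ℂ × ℂ) : ℝ := w.1.im ^ 2 * (w.2.re ^ 2 + w.2.im ^ 2)

/-- The twisted symplectic form `dp₁ ∧ dx + dp₂ ∧ dy + dx ∧ dy / y^2` at `w`, evaluated on the vectors `u`, `v`. -/
noncomputable def omega (w u v : ℂ × ℂ) : ℝ :=
  (u.2.re * v.1.re - v.2.re * u.1.re) + (u.2.im * v.1.im - v.2.im * u.1.im) +
    (u.1.re * v.1.im - v.1.re * u.1.im) / w.1.im ^ 2

/-- `X` is the Hamiltonian vector of `F` at `w`: `omega (X, ·) = - dF`. -/
def IsHamVec (F : ℂ × ℂ → ℝ) (w X : ℂ × ℂ) : Prop := ∀ v, omega w X v = -fderiv ℝ F w v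

/-- An integral curve of the Hamiltonian vector field of `F`. -/
def IsOrbit (F : ℂ × ℂ → ℝ) (w : ℝ → ℂ × ℂ) : Prop :=
  ∀ t, w t ∈ phase ∧ ∃ X, HasDerivAt w X t ∧ IsHamVec F (w t) X

/-- The Moebius action on the upper half plane. -/
noncomputable def mob (γ : SL(2, ℝ)) (z : ℂ) : ℂ :=
  ((γ 0 0 : ℝ) * z + (γ 0 1 : ℝ)) / ((γ 1 0 : ℝ) * z + (γ 1 1 : ℝ))

/-- The cotangent lift of the Moebius action: the derivative of `mob γ` is multiplication by `(c z + d)⁻²`, so a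
covector is multiplied by the conjugate of `(c z + d)²`. -/
noncomputable def act (γ : SL(2, ℝ)) (w : ℂ × ℂ) : ℂ × ℂ :=
  (mob γ w.1, w.2 * (starRingEnd ℂ) (((γ 1 0 : ℝ) * w.1 + (γ 1 1 : ℝ)) ^ 2))

/-- `Γ` acts on the upper half plane freely (modulo `± 1`), properly discontinuously and cocompactly, so that the
quotient is a closed orientable surface of curvature `-1`. -/
structure IsSurfaceGroup (Γ : Subgroup SL(2, ℝ)) : Prop where
  free : ∀ γ ∈ Γ, ∀ z : ℂ, 0 < z.im → mob γ z = z → γ = 1 ∨ γ = -1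
  discrete : ∀ K : Set ℂ, IsCompact K → (∀ z ∈ K, 0 < z.im) →
    {γ : SL(2, ℝ) | γ ∈ Γ ∧ ∃ z ∈ K, mob γ z ∈ K}.Finite
  cocompact : ∃ K : Set ℂ, IsCompact K ∧ (∀ z ∈ K, 0 < z.im) ∧
    ∀ z : ℂ, 0 < z.im → ∃ γ ∈ Γ, mob γ z ∈ K

/-- The lengths of the closed geodesics of the quotient: the translation lengths of the hyperbolic elements. -/
def lengths (Γ : Subgroup SL(2, ℝ)) : Set ℝ :=
  {l | 0 < l ∧ ∃ γ ∈ Γ, |γ 0 0 + γ 1 1| = 2 * Real.cosh (l / 2)}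

/-- `F` is (the lift of) an admissible function on `{H < a}` with maximum `c`. -/
structure Admissible (Γ : Subgroup SL(2, ℝ)) (a : ℝ) (F : ℂ × ℂ → ℝ) (c : ℝ) : Prop where
  smooth : ContDiffOn ℝ ∞ F phase
  invariant : ∀ γ ∈ Γ, ∀ w ∈ phase, F (act γ w) = F w
  nonneg : ∀ w ∈ phase, 0 ≤ F w
  support : ∃ b < a, ∀ w ∈ phase, b ≤ kin w → F w = 0
  zero : ∃ V : Set (ℂ × ℂ), IsOpen V ∧ V.Nonempty ∧ ∀ w ∈ V, w ∈ phase ∧ kin w < a ∧ F w = 0
  le_max : ∀ w ∈ phase, F w ≤ c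
  plateau : ∃ V : Set (ℂ × ℂ), IsOpen V ∧ V.Nonempty ∧ ∀ w ∈ V, w ∈ phase ∧ kin w < a ∧ F w = c
  slow : ∀ w : ℝ → ℂ × ℂ, IsOrbit F w → ∀ T : ℝ, 0 < T → T ≤ 1 → ∀ γ ∈ Γ,
    (∀ t, w (t + T) = act γ (w t)) → ∀ t, w t = w 0

/-- `F` Poisson commutes with the kinetic energy: it is a first integral of the magnetic flow. -/
def Commutes (F : ℂ × ℂ → ℝ) : Prop :=
  ∀ w ∈ phase, ∀ X, IsHamVec kin w X → fderiv ℝ F w X = 0

end Pool.Agent.HZ64
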