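import Pool.Agent.MP_6c7bdb_gt.FI.Basic

namespace Pool.Agent.HZ64

open scoped MatrixGroups ContDiff
open Complex Filter Topology

/-- The derivative of `psi` along a curve of frames. -/
noncomputable def dpsi (r : ℝ) (n j : ℂ) (r' : ℝ) (n' j' : ℂ) : ℂ × ℂ :=
  ((n' * j - n * j') / j ^ 2, r' * (starRingEnd ℂ) j ^ 2 + 2 * r * (starRingEnd ℂ) j * (starRingEnd ℂ) j')

theorem hasDerivAt_dpsi {r : ℝ → ℝ} {n j : ℝ → ℂ} {τ r' : ℝ} {n' j' : ℂ} (hr : HasDerivAt r r' τ)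
    (hn : HasDerivAt n n' τ) (hj : HasDerivAt j j' τ) (h0 : j τ ≠ 0) :
    HasDerivAt (fun s => psi (r s) (n s) (j s)) (dpsi (r τ) (n τ) (j τ) r' n' j') τ := by
  have h1 := hn.div hj h0
  have h2 : HasDerivAt (fun s => (starRingEnd ℂ) (j s)) ((starRingEnd ℂ) j') τ := hj.star
  have h3 := hr.ofReal_comp.mul (h2.pow 2)
  refine HasDerivAt.congr_deriv (h1.prodMk h3) ?_
  refine Prod.ext rfl ?_
  simp [dpsi]
  ring

/-- A real linear map of the plane. -/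
def lin (a u v d : ℝ) (x : ℂ) : ℂ := ⟨a * x.re + u * x.im, v * x.re + d * x.im⟩

theorem lin_re (a u v d : ℝ) (x : ℂ) : (lin a u v d x).re = a * x.re + u * x.im := rfl
theorem lin_im (a u v d : ℝ) (x : ℂ) : (lin a u v d x).im = v * x.re + d * x.im := rfl

theorem det_lin (a u v d : ℝ) (n j : ℂ) : det (lin a u v d n) (lin a u v d j) = (a * d - u * v) * det n j := by
  simp only [det, lin_re, lin_im]; ring

theorem lin_comb (a u v d p q : ℝ) (x y : ℂ) :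
    lin a u v d (p * x + q * y) = p * lin a u v d x + q * lin a u v d y := by
  apply Complex.ext <;> simp [lin_re, lin_im] <;> ring

theorem lin_E (a u v d : ℝ) (n j : ℂ) :
    lin a u v d n * j - n * lin a u v d j = ⟨det n j * (u + v), -(det n j * (a - d))⟩ := by
  apply Complex.ext <;> simp [lin_re, lin_im, det] <;> ring

theorem omega_eq (w u v : ℂ × ℂ) : omega w u v =
    ((starRingEnd ℂ) u.2 * v.1 - (starRingEnd ℂ) v.2 * u.1).re + ((starRingEnd ℂ) u.1 * v.1).im / w.1.im ^ 2 := by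
  simp [omega]; ring

theorem omega_dpsi (r : ℝ) {n j : ℂ} (h : 0 < det n j) (r₁ r₂ : ℝ) (n₁ j₁ n₂ j₂ : ℂ) :
    omega (psi r n j) (dpsi r n j r₁ n₁ j₁) (dpsi r n j r₂ n₂ j₂) =
      r₁ * (n₂ * j - n * j₂).re - r₂ * (n₁ * j - n * j₁).re + 2 * r * (j₁ * n₂ - j₂ * n₁).re +
        ((starRingEnd ℂ) (n₁ * j - n * j₁) * (n₂ * j - n * j₂)).im / det n j ^ 2 := by
  have hj := ne_zero_of_det h
  have hj' : (starRingEnd ℂ) j ≠ 0 := by simpa using hj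
  have hp := normSq_pos_of_det h
  have hN : ((j.re ^ 2 + j.im ^ 2 : ℝ) : ℂ) = j * (starRingEnd ℂ) j := by
    rw [mul_conj, normSq_apply]; push_cast; ring
  have e1 : (starRingEnd ℂ) (dpsi r n j r₁ n₁ j₁).2 * (dpsi r n j r₂ n₂ j₂).1 -
      (starRingEnd ℂ) (dpsi r n j r₂ n₂ j₂).2 * (dpsi r n j r₁ n₁ j₁).1 =
      r₁ * (n₂ * j - n * j₂) - r₂ * (n₁ * j - n * j₁) + ((2 * r : ℝ) : ℂ) * (j₁ * n₂ - j₂ * n₁) := by
    simp only [dpsi, map_add, map_mul, map_pow, conj_conj, conj_ofReal, map_ofNat]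
    push_cast
    field_simp
    ring
  have e2 : (starRingEnd ℂ) (dpsi r n j r₁ n₁ j₁).1 * (dpsi r n j r₂ n₂ j₂).1 =
      (starRingEnd ℂ) (n₁ * j - n * j₁) * (n₂ * j - n * j₂) / (((j.re ^ 2 + j.im ^ 2) ^ 2 : ℝ) : ℂ) := by
    rw [ofReal_pow, hN]
    simp only [dpsi, map_div₀, map_pow]
    field_simp
  rw [omega_eq, e1, e2, psi_im, div_ofReal_im]
  simp only [add_re, sub_re, re_ofReal_mul]
  have := h.ne'
  field_simp

theorem omega_lin (r : ℝ) {n j : ℂ} (h : 0 < det n j) (r₁ a₁ u₁ v₁ d₁ r₂ a₂ u₂ v₂ d₂ : ℝ) :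
    omega (psi r n j) (dpsi r n j r₁ (lin a₁ u₁ v₁ d₁ n) (lin a₁ u₁ v₁ d₁ j))
        (dpsi r n j r₂ (lin a₂ u₂ v₂ d₂ n) (lin a₂ u₂ v₂ d₂ j)) =
      det n j * (r₁ * (u₂ + v₂) - r₂ * (u₁ + v₁)) +
        2 * r * det n j * ((a₁ * u₂ - a₂ * u₁) - (v₁ * d₂ - v₂ * d₁)) +
        ((a₁ - d₁) * (u₂ + v₂) - (a₂ - d₂) * (u₁ + v₁)) := by
  rw [omega_dpsi r h, lin_E, lin_E]
  have e : (lin a₁ u₁ v₁ d₁ j * lin a₂ u₂ v₂ d₂ n - lin a₂ u₂ v₂ d₂ j * lin a₁ u₁ v₁ d₁ n).re =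
      det n j * ((a₁ * u₂ - a₂ * u₁) - (v₁ * d₂ - v₂ * d₁)) := by
    simp only [sub_re, mul_re, lin_re, lin_im, det]; ring
  rw [e]
  have := h.ne'
  simp only [mul_im, conj_re, conj_im]
  field_simp
  ring

theorem exists_dpsi {r : ℝ} (hr : 0 < r) {n j : ℂ} (hd : det n j = 1) (X : ℂ × ℂ) :
    ∃ r' b u v : ℝ, X = dpsi r n j r' (lin b u v (-b) n) (lin b u v (-b) j) := by
  have hd' : 0 < det n j := by rw [hd]; exact one_pos
  have hj := ne_zero_of_det hd'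
  have hj' : (starRingEnd ℂ) j ≠ 0 := by simpa using hj
  obtain ⟨β, hβ⟩ : ∃ β : ℂ, β = I * X.1 * j ^ 2 / 2 := ⟨_, rfl⟩
  obtain ⟨W, hW⟩ : ∃ W : ℂ, W = (X.2 - 2 * r * (starRingEnd ℂ) β * (j * (starRingEnd ℂ) j)) /
    (starRingEnd ℂ) j ^ 2 := ⟨_, rfl⟩
  obtain ⟨θ, hθ⟩ : ∃ θ : ℝ, θ = -W.im / (2 * r) := ⟨_, rfl⟩
  refine ⟨W.re, β.re, β.im - θ, β.im + θ, Prod.ext ?_ ?_⟩
  · have e : (⟨det n j * (β.im - θ + (β.im + θ)), -(det n j * (β.re - -β.re))⟩ : ℂ) = -2 * I * β := by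
      apply Complex.ext <;> simp [hd] <;> ring
    simp only [dpsi]
    rw [lin_E, e, hβ]
    field_simp
    simp
  · have e : (starRingEnd ℂ) (lin β.re (β.im - θ) (β.im + θ) (-β.re) j) =
        -I * θ * (starRingEnd ℂ) j + (starRingEnd ℂ) β * j := by
      apply Complex.ext <;> simp [lin_re, lin_im] <;> ring
    have e2 : W = W.re - 2 * r * θ * I := by
      apply Complex.ext
      · simp
      · have : W.im = -(2 * r * θ) := by rw [hθ]; field_simp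
        simpa using this
    have e3 : X.2 = W * (starRingEnd ℂ) j ^ 2 + 2 * r * (starRingEnd ℂ) β * (j * (starRingEnd ℂ) j) := by
      rw [hW]; field_simp; ring
    simp only [dpsi]
    rw [e, e3]
    linear_combination ((starRingEnd ℂ) j ^ 2) * e2

theorem kin_psi' (r : ℝ) {n j : ℂ} (h : 0 < det n j) : kin (psi r n j) = (det n j * r) ^ 2 := by
  have hp := normSq_pos_of_det h
  rw [kin, psi_im, psi_2re, psi_2im]
  field_simp
  ring

end Pool.Agent.HZ64
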