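import Pool.Agent.MP_6c7bdb_gt.FI.Basic

namespace Pool.Agent.HZ64

open scoped MatrixGroups ContDiff Topology
open Complex Set

theorem exists_cut {L η : ℝ} (hL : 0 < L) (hη : 0 < η) :
    ∃ (θ : ℝ → ℝ) (δ m : ℝ), 0 < δ ∧ δ < L ∧ ContDiff ℝ ∞ θ ∧ (∀ x, x ≤ δ → θ x = 0) ∧
      (∀ x, L - δ ≤ x → θ x = m) ∧ (∀ x, 0 ≤ deriv θ x ∧ deriv θ x ≤ 1) ∧
      (∀ x, 0 ≤ θ x ∧ θ x ≤ m) ∧ L - η ≤ m := by
  obtain ⟨δ, hδ, hδL, hδη⟩ : ∃ δ : ℝ, 0 < δ ∧ 8 * δ ≤ L ∧ 8 * δ ≤ η :=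
    ⟨min L η / 8, by positivity, by linarith [min_le_left L η], by linarith [min_le_right L η]⟩
  let χ : ContDiffBump (L / 2) := ⟨L / 2 - 2 * δ, L / 2 - δ, by linarith, by linarith⟩
  have hc : Continuous χ := χ.continuous
  have hz : ∀ u, u ≤ δ ∨ L - δ ≤ u → χ u = 0 := by
    intro u hu
    apply χ.zero_of_le_dist
    show L / 2 - δ ≤ dist u (L / 2)
    rw [Real.dist_eq]
    rcases hu with hu | hu
    · exact le_abs.2 (Or.inr (by linarith))
    · exact le_abs.2 (Or.inl (by linarith))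
  have ho : ∀ u, 2 * δ ≤ u → u ≤ L - 2 * δ → χ u = 1 := by
    intro u h1 h2
    apply χ.one_of_mem_closedBall
    show dist u (L / 2) ≤ L / 2 - 2 * δ
    rw [Real.dist_eq, abs_le]
    constructor <;> linarith
  let θ : ℝ → ℝ := fun x => ∫ u in (0 : ℝ)..x, χ u
  have hd : ∀ x, HasDerivAt θ (χ x) x := fun x => (hc.integral_hasStrictDerivAt 0 x).hasDerivAt
  have hdd : deriv θ = χ := funext fun x => (hd x).deriv
  have hdiff : Differentiable ℝ θ := fun x => (hd x).differentiableAt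
  have hmono : Monotone θ := monotone_of_deriv_nonneg hdiff (fun x => by rw [hdd]; exact χ.nonneg)
  have hsub : ∀ x y, θ y - θ x = ∫ u in x..y, χ u := fun x y =>
    intervalIntegral.integral_interval_sub_left (hc.intervalIntegrable _ _) (hc.intervalIntegrable _ _)
  have h0 : ∀ x, x ≤ δ → θ x = 0 := by
    intro x hx
    have : (∫ u in (0 : ℝ)..x, χ u) = ∫ _u in (0 : ℝ)..x, (0 : ℝ) := by
      apply intervalIntegral.integral_congr
      intro u hu
      exact hz u (Or.inl (le_trans hu.2 (max_le hδ.le hx)))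
    simpa using this
  have h1 : ∀ x, L - δ ≤ x → θ x = θ (L - δ) := by
    intro x hx
    have : (∫ u in (L - δ)..x, χ u) = ∫ _u in (L - δ)..x, (0 : ℝ) := by
      apply intervalIntegral.integral_congr
      intro u hu
      exact hz u (Or.inr (le_trans (le_min le_rfl hx) hu.1))
    have h := hsub (L - δ) x
    rw [this] at h
    simp at h
    linarith
  have h2 : θ (L - 2 * δ) - θ (2 * δ) = L - 4 * δ := by
    have : (∫ u in (2 * δ)..(L - 2 * δ), χ u) = ∫ _u in (2 * δ)..(L - 2 * δ), (1 : ℝ) := by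
      apply intervalIntegral.integral_congr
      intro u hu
      rw [uIcc_of_le (by linarith)] at hu
      exact ho u hu.1 hu.2
    rw [hsub, this]; simp; ring
  have hnn : ∀ x, 0 ≤ θ x := by
    intro x
    rcases le_total x δ with h | h
    · rw [h0 x h]
    · rw [← h0 δ le_rfl]; exact hmono h
  refine ⟨θ, δ, θ (L - δ), hδ, by linarith, ?_, h0, h1, fun x => ?_, fun x => ⟨hnn x, ?_⟩, ?_⟩
  · rw [contDiff_infty_iff_deriv, hdd]; exact ⟨hdiff, χ.contDiff⟩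
  · rw [hdd]; exact ⟨χ.nonneg, χ.le_one⟩
  · rcases le_total x (L - δ) with h | h
    · exact hmono h
    · rw [h1 x h]
  · have := hmono (show L - 2 * δ ≤ L - δ by linarith)
    have := hnn (2 * δ)
    linarith

theorem cut_sqrt {θ : ℝ → ℝ} {δ : ℝ} (hδ : 0 < δ) (hθ : ContDiff ℝ ∞ θ) (h0 : ∀ x, x ≤ δ → θ x = 0) :
    ContDiff ℝ ∞ (fun u => θ (√u)) ∧ (∀ u, u ≤ 0 → HasDerivAt (fun u => θ (√u)) 0 u) ∧
      ∀ u, 0 < u → HasDerivAt (fun u => θ (√u)) (deriv θ (√u) * (1 / (2 * √u))) u := by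
  have hev : ∀ u : ℝ, u ≤ 0 → (fun u => θ (√u)) =ᶠ[𝓝 u] fun _ => 0 := by
    intro u hu
    have : ∀ᶠ v in 𝓝 u, v < δ ^ 2 := eventually_lt_nhds (lt_of_le_of_lt hu (by positivity))
    filter_upwards [this] with v hv
    exact h0 _ (Real.sqrt_le_iff.2 ⟨hδ.le, hv.le⟩)
  refine ⟨contDiff_iff_contDiffAt.2 fun u => ?_, fun u hu => ?_, fun u hu => ?_⟩
  · rcases le_or_gt u 0 with hu | hu
    · exact contDiffAt_const.congr_of_eventuallyEq (hev u hu)
    · exact hθ.contDiffAt.comp u (Real.contDiffAt_sqrt hu.ne')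
  · exact (hasDerivAt_const u (0 : ℝ)).congr_of_eventuallyEq (hev u hu)
  · exact ((hθ.differentiable (by simp)) _).hasDerivAt.comp u (Real.hasDerivAt_sqrt hu.ne')

theorem exists_profile {s a c₀ : ℝ} (hs : 0 ≤ s) (ha : 1 < a) (hc : c₀ < 2 * Real.pi + s * √(a - 1)) :
    ∃ (f : ℝ → ℝ) (c : ℝ), c₀ < c ∧ ContDiff ℝ ∞ f ∧ (∀ h, 0 ≤ f h ∧ f h ≤ c) ∧
      (∃ η, 0 < η ∧ η < 1 ∧ ∀ h, h < η → f h = c) ∧ (∃ b, 1 ≤ b ∧ b < a ∧ ∀ h, b ≤ h → f h = 0) ∧
      ∀ h, deriv f h ≠ 0 → (h < 1 ∧ |deriv f h| * √(1 - h) < Real.pi) ∨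
        (1 < h ∧ 2 * |deriv f h| * √(h - 1) < s) := by
  have hρ : 0 < √(a - 1) := Real.sqrt_pos.2 (by linarith)
  have hpi := Real.pi_pos
  obtain ⟨τ, hτ, hτ0, hτ1⟩ : ∃ τ : ℝ, c₀ < (1 - τ) * (2 * Real.pi * (1 - τ) + s * (√(a - 1) - τ)) ∧
      0 < τ ∧ τ < 1 := by
    have hcont : Continuous fun τ : ℝ => (1 - τ) * (2 * Real.pi * (1 - τ) + s * (√(a - 1) - τ)) := by fun_prop
    have h1 : ∀ᶠ τ in 𝓝 (0 : ℝ), c₀ < (1 - τ) * (2 * Real.pi * (1 - τ) + s * (√(a - 1) - τ)) :=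
      hcont.continuousAt.eventually (lt_mem_nhds (by simpa using hc))
    have h2 : ∀ᶠ τ in 𝓝 (0 : ℝ), τ < 1 := eventually_lt_nhds one_pos
    have h3 : ∀ᶠ τ in 𝓝[>] (0 : ℝ), 0 < τ := self_mem_nhdsWithin
    obtain ⟨τ, h4, h5⟩ := (((h1.and h2).filter_mono nhdsWithin_le_nhds).and h3).exists
    exact ⟨τ, h4.1, h5, h4.2⟩
  obtain ⟨θ₁, δ₁, m₁, hδ₁, hL₁, hθ₁, z₁, o₁, d₁, b₁, l₁⟩ := exists_cut one_pos hτ0
  obtain ⟨θ₂, δ₂, m₂, hδ₂, hL₂, hθ₂, z₂, o₂, d₂, b₂, l₂⟩ := exists_cut hρ hτ0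
  obtain ⟨s₁, n₁, p₁⟩ := cut_sqrt hδ₁ hθ₁ z₁
  obtain ⟨s₂, n₂, p₂⟩ := cut_sqrt hδ₂ hθ₂ z₂
  have hl : 0 < 1 - τ := by linarith
  let f : ℝ → ℝ := fun h => (1 - τ) * (2 * Real.pi * θ₁ (√(1 - h)) + s * (m₂ - θ₂ (√(h - 1))))
  have hder : ∀ h A B : ℝ, HasDerivAt (fun u => θ₁ (√u)) A (1 - h) → HasDerivAt (fun u => θ₂ (√u)) B (h - 1) →
      deriv f h = -((1 - τ) * (2 * Real.pi * A + s * B)) := by
    intro h A B hA hB
    have e1 := hA.comp h ((hasDerivAt_id' h).const_sub 1)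
    have e2 := hB.comp h ((hasDerivAt_id' h).sub_const 1)
    have e := ((e1.const_mul (2 * Real.pi)).add ((e2.const_sub m₂).const_mul s)).const_mul (1 - τ)
    refine (HasDerivAt.congr_deriv e ?_).deriv
    ring
  refine ⟨f, (1 - τ) * (2 * Real.pi * m₁ + s * m₂), ?_, ?_, fun h => ⟨?_, ?_⟩, ?_, ?_, ?_⟩
  · refine lt_of_lt_of_le hτ (mul_le_mul_of_nonneg_left ?_ hl.le)
    have := mul_le_mul_of_nonneg_left l₁ (show 0 ≤ 2 * Real.pi by positivity)
    have := mul_le_mul_of_nonneg_left l₂ hs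
    linarith
  · have e1 : ContDiff ℝ ∞ fun h : ℝ => θ₁ (√(1 - h)) := s₁.comp (contDiff_const.sub contDiff_id)
    have e2 : ContDiff ℝ ∞ fun h : ℝ => θ₂ (√(h - 1)) := s₂.comp (contDiff_id.sub contDiff_const)
    exact contDiff_const.mul ((contDiff_const.mul e1).add (contDiff_const.mul (contDiff_const.sub e2)))
  · have := (b₁ (√(1 - h))).1
    have h2 : 0 ≤ m₂ - θ₂ (√(h - 1)) := sub_nonneg.2 (b₂ _).2
    simp only [f]
    positivity
  · refine mul_le_mul_of_nonneg_left ?_ hl.le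
    have := mul_le_mul_of_nonneg_left (b₁ (√(1 - h))).2 (show 0 ≤ 2 * Real.pi by positivity)
    have := mul_nonneg hs (b₂ (√(h - 1))).1
    linarith
  · refine ⟨1 - (1 - δ₁) ^ 2, by nlinarith, by nlinarith, fun h hh => ?_⟩
    have e1 : θ₁ (√(1 - h)) = m₁ := o₁ _ (Real.le_sqrt_of_sq_le (by linarith))
    have e2 : θ₂ (√(h - 1)) = 0 := z₂ _ (by
      rw [Real.sqrt_eq_zero_of_nonpos (by nlinarith)]; exact hδ₂.le)
    simp only [f, e1, e2, sub_zero]
  · refine ⟨1 + (√(a - 1) - δ₂) ^ 2, by nlinarith [sq_nonneg (√(a - 1) - δ₂)], ?_, fun h hh => ?_⟩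
    · have := Real.sq_sqrt (show 0 ≤ a - 1 by linarith)
      nlinarith
    · have e1 : θ₁ (√(1 - h)) = 0 := z₁ _ (by
        rw [Real.sqrt_eq_zero_of_nonpos (by nlinarith [sq_nonneg (√(a - 1) - δ₂)])]; exact hδ₁.le)
      have e2 : θ₂ (√(h - 1)) = m₂ := o₂ _ (Real.le_sqrt_of_sq_le (by linarith))
      simp [f, e1, e2]
  · intro h hne
    rcases lt_trichotomy h 1 with h1 | rfl | h1
    · left
      refine ⟨h1, ?_⟩
      have hq : 0 < √(1 - h) := Real.sqrt_pos.2 (by linarith)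
      have e := hder h _ _ (p₁ _ (by linarith)) (n₂ _ (by linarith))
      have e' : |deriv f h| * √(1 - h) = (1 - τ) * Real.pi * deriv θ₁ (√(1 - h)) := by
        have := (d₁ (√(1 - h))).1
        rw [e, abs_neg, abs_of_nonneg (by positivity)]
        field_simp; ring
      rw [e']
      have := mul_le_mul_of_nonneg_left (d₁ (√(1 - h))).2 (show 0 ≤ (1 - τ) * Real.pi by positivity)
      nlinarith
    · exfalso
      apply hne
      rw [hder 1 0 0 (n₁ _ (by simp)) (n₂ _ (by simp))]; simp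
    · right
      refine ⟨h1, ?_⟩
      have hq : 0 < √(h - 1) := Real.sqrt_pos.2 (by linarith)
      have e := hder h _ _ (n₁ _ (by linarith)) (p₂ _ (by linarith))
      have hs' : 0 < s := by
        rcases hs.eq_or_lt with rfl | h2
        · exfalso; apply hne; rw [e]; simp
        · exact h2
      have e' : 2 * |deriv f h| * √(h - 1) = (1 - τ) * s * deriv θ₂ (√(h - 1)) := by
        have := (d₂ (√(h - 1))).1
        rw [e, abs_neg, abs_of_nonneg (by positivity)]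
        field_simp; ring
      rw [e']
      have := mul_le_mul_of_nonneg_left (d₂ (√(h - 1))).2 (show 0 ≤ (1 - τ) * s by positivity)
      nlinarith

/-- An element with trace of absolute value less than two has a fixed point in the upper half plane. -/
theorem two_le_abs_trace {Γ : Subgroup SL(2, ℝ)} (hΓ : IsSurfaceGroup Γ) {γ : SL(2, ℝ)} (hγ : γ ∈ Γ) :
    2 ≤ |γ 0 0 + γ 1 1| := by
  by_contra hlt
  rw [not_le] at hlt
  have hd := sl_det γ
  have h4 : 0 < 4 - (γ 0 0 + γ 1 1) ^ 2 := by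
    have := abs_lt.1 hlt
    nlinarith
  have hc : γ 1 0 ≠ 0 := by
    intro h0
    rw [h0] at hd
    nlinarith [sq_nonneg (γ 0 0 - γ 1 1)]
  obtain ⟨y, hy, hy2⟩ : ∃ y : ℝ, 0 < y ∧ y ^ 2 * (2 * γ 1 0) ^ 2 = 4 - (γ 0 0 + γ 1 1) ^ 2 := by
    refine ⟨√(4 - (γ 0 0 + γ 1 1) ^ 2) / |2 * γ 1 0|, ?_, ?_⟩
    · exact div_pos (Real.sqrt_pos.2 h4) (abs_pos.2 (mul_ne_zero two_ne_zero hc))
    · rw [div_pow, Real.sq_sqrt h4.le, sq_abs]; field_simp
  obtain ⟨x, hx⟩ : ∃ x : ℝ, x * (2 * γ 1 0) = γ 0 0 - γ 1 1 := ⟨(γ 0 0 - γ 1 1) / (2 * γ 1 0), by field_simp⟩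
  have hfix : mob γ ⟨x, y⟩ = ⟨x, y⟩ := by
    have hne : ((γ 1 0 : ℝ) : ℂ) * ⟨x, y⟩ + (γ 1 1 : ℝ) ≠ 0 := by
      intro h
      have := congrArg Complex.im h
      simp [hc, hy.ne'] at this
    rw [mob, div_eq_iff hne]
    apply Complex.ext
    · simp
      apply mul_left_cancel₀ (show (4 * γ 1 0) ≠ 0 from mul_ne_zero (by norm_num) hc)
      linear_combination hy2 - 4 * hd - (x * (2 * γ 1 0) - γ 0 0 + γ 1 1) * hx
    · simp
      linear_combination (-y) * hx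
  rcases hΓ.free γ hγ ⟨x, y⟩ hy hfix with rfl | rfl
  · simp at hc
  · simp at hc

theorem orbit_unique {μ T : ℝ} {w v : ℝ → ℂ × ℂ} (hT : 0 ≤ T) (hw : ∀ t, HasDerivAt w (μ • XH (w t)) t)
    (hv : ∀ t, HasDerivAt v (μ • XH (v t)) t) (h0 : w 0 = v 0) : w T = v T := by
  have cw : Continuous w := continuous_iff_continuousAt.2 fun t => (hw t).continuousAt
  have cv : Continuous v := continuous_iff_continuousAt.2 fun t => (hv t).continuousAt
  have hb := ((isCompact_Icc (a := 0) (b := T)).image cw).isBounded.union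
    ((isCompact_Icc (a := 0) (b := T)).image cv).isBounded
  obtain ⟨R, hR⟩ := hb.subset_closedBall 0
  obtain ⟨K, hK⟩ := (contDiff_XH.const_smul μ).contDiffOn.exists_lipschitzOnWith one_ne_zero
    (convex_closedBall (0 : ℂ × ℂ) R) (isCompact_closedBall 0 R)
  exact ODE_solution_unique_of_mem_Icc_right (v := fun _ x => μ • XH x) (s := fun _ => Metric.closedBall 0 R)
    (fun _ _ => hK) cw.continuousOn (fun t _ => (hw t).hasDerivWithinAt)
    (fun t ht => hR (Or.inl ⟨t, Ico_subset_Icc_self ht, rfl⟩)) cv.continuousOn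
    (fun t _ => (hv t).hasDerivWithinAt) (fun t ht => hR (Or.inr ⟨t, Ico_subset_Icc_self ht, rfl⟩)) h0
    ⟨hT, le_rfl⟩

theorem trace_of_closed {r μ T : ℝ} {C S : ℝ → ℝ} (hr : 0 < r) (hT : TrigPair (r ^ 2 - 1) C S) (hT0 : 0 ≤ T)
    {w : ℝ → ℂ × ℂ} (hw : ∀ t, HasDerivAt w (μ • XH (w t)) t) (hp : w 0 ∈ phase) (hk : kin (w 0) = r ^ 2)
    {γ : SL(2, ℝ)} (hγ : w T = act γ (w 0)) : |γ 0 0 + γ 1 1| = 2 * |C (μ * T)| := by
  obtain ⟨n, j, hd, e⟩ := exists_psi hp hr.le hk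
  have hd' : 0 < det n j := by rw [hd]; exact one_pos
  have h1 : w T = line r C S n j (μ * T) :=
    orbit_unique (v := fun s => line r C S n j (μ * s)) hT0 hw (hT.hasDerivAt_line μ hd)
      (by simp only [mul_zero]; rw [hT.line_zero, e])
  rw [hγ, e, act_psi γ r hd'] at h1
  have hj : ev r (C (μ * T)) (S (μ * T)) j ≠ 0 :=
    ne_zero_of_det (n := ev r (C (μ * T)) (S (μ * T)) n) (by rw [hT.det_eq]; exact hd')
  obtain ⟨ε, hε, h2, h3⟩ := psi_inj hr hj h1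
  have h4 := tr_ev r (C (μ * T)) (S (μ * T)) n j
  have h5 : det (gn γ n j) j + det n (gj γ n j) = (γ 0 0 + γ 1 1) * det n j := by
    simp [gn, gj, det]; ring
  have h6 : det (gn γ n j) j + det n (gj γ n j) =
      ε * (det (ev r (C (μ * T)) (S (μ * T)) n) j + det n (ev r (C (μ * T)) (S (μ * T)) j)) := by
    rw [h2, h3]; simp [det]; ring
  rw [h4, h5, hd, mul_one, mul_one] at h6
  rw [h6]
  rcases hε with rfl | rfl <;> simp [abs_mul]

theorem lower {Γ : Subgroup SL(2, ℝ)} (hΓ : IsSurfaceGroup Γ) {s a c₀ : ℝ} (hs0 : 0 ≤ s)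
    (hs : s ∈ lowerBounds (lengths Γ)) (ha : 1 < a) (hc : c₀ < 2 * Real.pi + s * √(a - 1)) :
    ∃ F c, c₀ < c ∧ Admissible Γ a F c ∧ Commutes F := by
  obtain ⟨f, c, hc, hf, hb, ⟨η, hη0, hη1, hη⟩, ⟨b, hb1, hba, hb0⟩, hder⟩ := exists_profile hs0 ha hc
  have hfd : ∀ w, fderiv ℝ (fun w => f (kin w)) w = deriv f (kin w) • fderiv ℝ kin w := fun w =>
    (((hf.differentiable (by simp)) (kin w)).hasDerivAt.comp_hasFDerivAt w
      (differentiable_kin w).hasFDerivAt).fderiv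
  have hck : Continuous kin := contDiff_kin.continuous
  have hI : det I 1 = 1 := by simp [det]
  refine ⟨fun w => f (kin w), c, hc, ⟨(hf.comp contDiff_kin).contDiffOn, fun γ _ w hw => ?_,
    fun w _ => (hb _).1, ⟨b, hba, fun w _ h => hb0 _ h⟩, ?_, fun w _ => (hb _).2, ?_, ?_⟩, ?_⟩
  · simp only [(act_mem γ hw).2]
  · refine ⟨phase ∩ kin ⁻¹' Ioo b a, isOpen_phase.inter (isOpen_Ioo.preimage hck),
      ⟨psi (√((a + b) / 2)) I 1, psi_mem _ (by rw [hI]; exact one_pos), ?_⟩,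
      fun w hw => ⟨hw.1, hw.2.2, hb0 _ hw.2.1.le⟩⟩
    rw [mem_preimage, kin_psi _ hI, Real.sq_sqrt (by linarith)]
    constructor <;> linarith
  · refine ⟨phase ∩ kin ⁻¹' Iio η, isOpen_phase.inter (isOpen_Iio.preimage hck),
      ⟨psi 0 I 1, psi_mem _ (by rw [hI]; exact one_pos), ?_⟩,
      fun w hw => ⟨hw.1, lt_trans hw.2 (by linarith), hη _ hw.2⟩⟩
    rw [mem_preimage, kin_psi _ hI]
    simpa using hη0
  · intro w hw T hT0 hT1 γ hγ hper
    have hw1 : ∀ t, HasDerivAt w (deriv f (kin (w t)) • XH (w t)) t := by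
      intro t
      obtain ⟨hp, X, hX, hH⟩ := hw t
      rwa [(isHamVec_iff hp (hfd _) X).1 hH] at hX
    have hk1 : ∀ t, HasDerivAt (fun t => kin (w t)) 0 t := by
      intro t
      refine HasDerivAt.congr_deriv ((differentiable_kin (w t)).hasFDerivAt.comp_hasDerivAt t (hw1 t)) ?_
      rw [map_smul, fderiv_kin_XH, smul_zero]
    have hk : ∀ t, kin (w t) = kin (w 0) := fun t =>
      is_const_of_deriv_eq_zero (fun t => (hk1 t).differentiableAt) (fun t => (hk1 t).deriv) t 0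
    simp only [hk] at hw1
    by_cases hμ : deriv f (kin (w 0)) = 0
    · simp only [hμ, zero_smul] at hw1
      exact fun t => is_const_of_deriv_eq_zero (fun t => (hw1 t).differentiableAt) (fun t => (hw1 t).deriv) t 0
    exfalso
    have hpos : 0 < kin (w 0) := by
      by_contra hle
      apply hμ
      have : f =ᶠ[𝓝 (kin (w 0))] fun _ => c := by
        filter_upwards [eventually_lt_nhds (lt_of_le_of_lt (not_lt.1 hle) hη0)] with h hh using hη h hh
      rw [this.deriv_eq]; simp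
    obtain ⟨r, hr, hkr⟩ : ∃ r : ℝ, 0 < r ∧ kin (w 0) = r ^ 2 :=
      ⟨√(kin (w 0)), Real.sqrt_pos.2 hpos, (Real.sq_sqrt hpos.le).symm⟩
    have hper0 : w T = act γ (w 0) := by simpa using hper 0
    have hμ' : 0 < |deriv f (kin (w 0))| := abs_pos.2 hμ
    rcases hder _ hμ with ⟨h1, h2⟩ | ⟨h1, h2⟩
    · have hq : 0 < √(1 - kin (w 0)) := Real.sqrt_pos.2 (by linarith)
      have hT := trig_cos (κ := r ^ 2 - 1) hq (by rw [Real.sq_sqrt (by linarith), hkr]; ring)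
      have h3 := trace_of_closed hr hT hT0.le hw1 (hw 0).1 hkr hper0
      have h4 := two_le_abs_trace hΓ hγ
      set x := √(1 - kin (w 0)) * (deriv f (kin (w 0)) * T) with hx
      have hx1 : |x| < Real.pi := by
        rw [hx, abs_mul, abs_mul, abs_of_pos hq, abs_of_pos hT0]
        nlinarith [mul_pos hμ' hq]
      have hx0 : x ≠ 0 := mul_ne_zero hq.ne' (mul_ne_zero hμ hT0.ne')
      have hsin : Real.sin x ≠ 0 := fun h =>
        hx0 ((Real.sin_eq_zero_iff_of_lt_of_lt (abs_lt.1 hx1).1 (abs_lt.1 hx1).2).1 h)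
      have h5 := Real.sin_sq_add_cos_sq x
      have h6 : 0 < Real.sin x ^ 2 := by positivity
      have h7 : 1 ≤ |Real.cos x| := by linarith
      nlinarith [sq_abs (Real.cos x), abs_nonneg (Real.cos x)]
    · have hq : 0 < √(kin (w 0) - 1) := Real.sqrt_pos.2 (by linarith)
      have hT := trig_cosh (κ := r ^ 2 - 1) hq (by rw [Real.sq_sqrt (by linarith), hkr])
      have h3 := trace_of_closed hr hT hT0.le hw1 (hw 0).1 hkr hper0
      have hmem : 2 * (√(kin (w 0) - 1) * (|deriv f (kin (w 0))| * T)) ∈ lengths Γ := by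
        refine ⟨by positivity, γ, hγ, ?_⟩
        rw [h3, abs_of_pos (Real.cosh_pos _), ← Real.cosh_abs, abs_mul, abs_mul, abs_of_pos hq, abs_of_pos hT0]
        congr 2; ring
      have h4 := hs hmem
      nlinarith [mul_pos hμ' hq]
  · intro w hw X hX
    rw [(isHamVec_iff hw (μ := 1) (by simp) X).1 hX, hfd]
    simp [fderiv_kin_XH]

end Pool.Agent.HZ64
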