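import Pool.Agent.MP_6c7bdb_gt.FI.Upper

namespace Pool.Agent.HZ64

open scoped MatrixGroups ContDiff Topology
open Complex Set

/-- The transvection along `u`. -/
noncomputable def tv (u : ℂ) (x : ℝ) (y : ℂ) : ℂ := y + ((x * det u y : ℝ) : ℂ) * u

theorem tv_re (u : ℂ) (x : ℝ) (y : ℂ) : (tv u x y).re = y.re + x * det u y * u.re := by
  simp only [tv, add_re, re_ofReal_mul]
theorem tv_im (u : ℂ) (x : ℝ) (y : ℂ) : (tv u x y).im = y.im + x * det u y * u.im := by
  simp only [tv, add_im, im_ofReal_mul]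

theorem det_tv (u : ℂ) (x : ℝ) (n j : ℂ) : det (tv u x n) (tv u x j) = det n j := by
  rw [det, tv_re, tv_re, tv_im, tv_im]; simp only [det]; ring

theorem tv_comb (u : ℂ) (x a b : ℝ) (n j : ℂ) : tv u x (a * n + b * j) = a * tv u x n + b * tv u x j := by
  apply Complex.ext <;> simp [tv_re, tv_im, det] <;> ring

theorem tv_zero (u y : ℂ) : tv u 0 y = y := by simp [tv]

theorem ev_tv {r C S l : ℝ} {u : ℂ} (hp : C ^ 2 - (r ^ 2 - 1) * S ^ 2 = 1) (hu : ev r C S u = l * u)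
    (x : ℝ) (y : ℂ) : ev r C S (tv u x y) = tv u (x * l ^ 2) (ev r C S y) := by
  have h1 : l * det u (ev r C S y) = det u y := by
    have := det_ev r C S u y
    rw [hp, one_mul, hu] at this
    rw [← this]; simp [det]; ring
  have h2 := ev_comb r C S 1 (x * det u y) y u
  simp only [ofReal_one, one_mul] at h2
  rw [tv, h2, hu, tv, ← h1]
  push_cast; ring

theorem ev_eigen {r k : ℝ} (hk : 0 < k) {σ : ℝ} (hσ : σ = 1 ∨ σ = -1) {u : ℂ} (hu : gen r u = (σ * k : ℝ) * u)
    (t : ℝ) : ev r (Real.cosh (k * t)) (Real.sinh (k * t) / k) u = (Real.exp (σ * (k * t)) : ℝ) * u := by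
  have : Real.exp (σ * (k * t)) = Real.cosh (k * t) + Real.sinh (k * t) / k * (σ * k) := by
    rcases hσ with rfl | rfl
    · rw [one_mul, ← Real.cosh_add_sinh]; field_simp
    · rw [neg_one_mul, ← Real.cosh_sub_sinh]; field_simp; ring
  rw [ev, hu, this, ofReal_add, ofReal_mul (Real.sinh (k * t) / k)]; ring

theorem const_of_transvections {G : ℝ → ℝ → ℝ → ℝ → ℝ}
    (hU : ∀ a b c d x, a * d - b * c = 1 → G (a + x * b) b (c + x * d) d = G a b c d)
    (hL : ∀ a b c d x, a * d - b * c = 1 → G a (b + x * a) c (d + x * c) = G a b c d)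
    {a b c d : ℝ} (h : a * d - b * c = 1) : G a b c d = G 1 0 0 1 := by
  have key : ∀ a b c d : ℝ, a * d - b * c = 1 → b ≠ 0 → G a b c d = G 1 0 0 1 := by
    intro a b c d h hb
    have e1 : a + (1 - a) / b * b = 1 := by field_simp; ring
    have h1 := hU a b c d ((1 - a) / b) h
    rw [e1] at h1
    have hd : 1 * d - b * (c + (1 - a) / b * d) = 1 := by field_simp; linarith
    generalize c + (1 - a) / b * d = c' at h1 hd
    have h2 := hL 1 b c' d (-b) hd
    rw [show b + -b * 1 = 0 by ring, show d + -b * c' = 1 by linarith] at h2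
    have h3 := hU 1 0 c' 1 (-c') (by ring)
    rw [show (1 : ℝ) + -c' * 0 = 1 by ring, show c' + -c' * 1 = 0 by ring] at h3
    rw [← h1, ← h2, ← h3]
  by_cases hb : b = 0
  · subst hb
    have ha : a ≠ 0 := by rintro rfl; simp at h
    rw [← hL a 0 c d 1 h]
    exact key _ _ _ _ (by linarith) (by simpa using ha)
  · exact key a b c d h hb

theorem exists_eigen {A B C D l : ℝ} (hl : 1 < l) (hd : A * D - B * C = 1) (ht : A + D = l + l⁻¹) :
    ∃ a b c d : ℝ, a * d - b * c = 1 ∧ A * a + B * c = l * a ∧ C * a + D * c = l * c ∧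
      A * b + B * d = l⁻¹ * b ∧ C * b + D * d = l⁻¹ * d := by
  have hl0 : l ≠ 0 := by positivity
  have hm : l * l⁻¹ = 1 := mul_inv_cancel₀ hl0
  have hlt : l⁻¹ < 1 := inv_lt_one_of_one_lt₀ hl
  generalize l⁻¹ = m at ht hm hlt
  obtain ⟨e, f, hef⟩ : ∃ e f : ℝ, (A * e + B * f) * f - (C * e + D * f) * e ≠ 0 := by
    by_cases hC : C = 0
    · by_cases hB : B = 0
      · refine ⟨1, 1, fun h => ?_⟩
        subst hC hB
        have h1 : A = D := by linarith
        subst h1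
        have h2 : (l - m) ^ 2 = 0 := by
          have : (l - m) ^ 2 = (l + m) ^ 2 - 4 * (l * m) := by ring
          rw [this, ← ht, hm]; linarith
        have h3 : 0 < l - m := by linarith
        exact absurd h2 (by positivity)
      · exact ⟨0, 1, by simpa using hB⟩
    · exact ⟨1, 0, by simpa using hC⟩
  have hΔ : (l - m) * ((A * e + B * f) * f - (C * e + D * f) * e) ≠ 0 := mul_ne_zero (by linarith) hef
  obtain ⟨q, hq⟩ : ∃ q : ℝ, q * ((l - m) * ((A * e + B * f) * f - (C * e + D * f) * e)) = 1 :=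
    ⟨_, inv_mul_cancel₀ hΔ⟩
  refine ⟨q * (A * e + B * f - m * e), l * e - (A * e + B * f), q * (C * e + D * f - m * f),
    l * f - (C * e + D * f), ?_, ?_, ?_, ?_, ?_⟩
  · linear_combination hq
  · linear_combination (q * (A * e + B * f)) * ht - q * e * hd + q * e * hm
  · linear_combination (q * (C * e + D * f)) * ht - q * f * hd + q * f * hm
  · linear_combination (-(A * e + B * f)) * ht + e * hd - e * hm
  · linear_combination (-(C * e + D * f)) * ht + f * hd - f * hm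

theorem exists_eigenbasis {r : ℝ} (hr : 1 < r) : ∃ v w : ℂ, det v w = 1 ∧
    gen r v = ((1 * √(r ^ 2 - 1) : ℝ) : ℂ) * v ∧ gen r w = ((-1 * √(r ^ 2 - 1) : ℝ) : ℂ) * w := by
  have hk : 0 < √(r ^ 2 - 1) := Real.sqrt_pos.2 (by nlinarith)
  have hk2 := Real.sq_sqrt (show 0 ≤ r ^ 2 - 1 by nlinarith)
  generalize √(r ^ 2 - 1) = k at hk hk2
  obtain ⟨q, hq⟩ : ∃ q : ℝ, q * (2 * k * (r - 1)) = 1 :=
    ⟨_, inv_mul_cancel₀ (mul_ne_zero (by positivity) (by linarith))⟩
  refine ⟨⟨r - 1, k⟩, ⟨q * (r - 1), -(q * k)⟩, ?_, ?_, ?_⟩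
  · simp only [det]; linear_combination hq
  · apply Complex.ext
    · rw [gen_re, re_ofReal_mul]; ring
    · rw [gen_im, im_ofReal_mul]; linear_combination -hk2
  · apply Complex.ext
    · rw [gen_re, re_ofReal_mul]; ring
    · rw [gen_im, im_ofReal_mul]; linear_combination (-q) * hk2

theorem trig_outer {r : ℝ} (hr : 1 < r) : TrigPair (r ^ 2 - 1) (fun t => Real.cosh (√(r ^ 2 - 1) * t))
    (fun t => Real.sinh (√(r ^ 2 - 1) * t) / √(r ^ 2 - 1)) :=
  trig_cosh (Real.sqrt_pos.2 (by nlinarith)) (Real.sq_sqrt (by nlinarith)).symm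

section
variable {Γ : Subgroup SL(2, ℝ)} {a c : ℝ} {F : ℂ × ℂ → ℝ}

theorem continuousAt_frame (hA : Admissible Γ a F c) (r : ℝ) {n j : ℂ} (hd : 0 < det n j) :
    ContinuousAt (fun x : ℝ × ℂ × ℂ => F (psi x.1 x.2.1 x.2.2)) (r, n, j) :=
  ContinuousAt.comp (f := fun x : ℝ × ℂ × ℂ => psi x.1 x.2.1 x.2.2)
    (hA.contDiffAt (psi_mem r hd)).continuousAt (continuousAt_psi (ne_zero_of_det hd))

theorem unif_tv (hΓ : IsSurfaceGroup Γ) (hA : Admissible Γ a F c) (r : ℝ) (u : ℂ) {ε : ℝ} (hε : 0 < ε) :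
    ∀ᶠ x in 𝓝 (0 : ℝ), ∀ n j, det n j = 1 → |F (psi r (tv u x n) (tv u x j)) - F (psi r n j)| < ε := by
  obtain ⟨K, hK, hK1, hcov⟩ := exists_frames hΓ
  have h1 : ∀ᶠ x in 𝓝 (0 : ℝ), ∀ q ∈ K, |F (psi r (tv u x q.1) (tv u x q.2)) - F (psi r q.1 q.2)| < ε := by
    apply hK.eventually_forall_of_forall_eventually
    intro q hq
    have hd : 0 < det q.1 q.2 := by rw [hK1 q hq]; exact one_pos
    have c1 : Continuous fun z : ℝ × ℂ × ℂ => (r, tv u z.1 z.2.1, tv u z.1 z.2.2) := by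
      unfold tv det; fun_prop
    have c2 : Continuous fun z : ℝ × ℂ × ℂ => (r, z.2.1, z.2.2) := by fun_prop
    have e1 := ContinuousAt.comp_of_eq (continuousAt_frame hA r hd) (c1.continuousAt (x := (0, q)))
      (by simp [tv_zero])
    have e2 := ContinuousAt.comp_of_eq (continuousAt_frame hA r hd) (c2.continuousAt (x := (0, q))) rfl
    exact (e1.sub e2).abs.eventually (gt_mem_nhds (by simpa [tv_zero] using hε))
  filter_upwards [h1] with x hx n j hd
  obtain ⟨γ, hγ, hm⟩ := hcov n j hd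
  have h2 := hx _ hm
  have e1 : tv u x (gn γ n j) = gn γ (tv u x n) (tv u x j) := tv_comb u x _ _ n j
  have e2 : tv u x (gj γ n j) = gj γ (tv u x n) (tv u x j) := tv_comb u x _ _ n j
  simp only [e1, e2] at h2
  rwa [hA.frame_inv hγ r hd, hA.frame_inv hγ r (by rw [det_tv, hd])] at h2

theorem mautner (hΓ : IsSurfaceGroup Γ) (hA : Admissible Γ a F c) (hC : Commutes F) {r : ℝ} (hr : 1 < r)
    {σ : ℝ} (hσ : σ = 1 ∨ σ = -1) {u : ℂ} (hu : gen r u = ((σ * √(r ^ 2 - 1) : ℝ) : ℂ) * u) (x : ℝ) {n j : ℂ}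
    (hd : det n j = 1) : F (psi r (tv u x n) (tv u x j)) = F (psi r n j) := by
  have hk : 0 < √(r ^ 2 - 1) := Real.sqrt_pos.2 (by nlinarith)
  have hT := trig_outer hr
  have hall : ∀ ε : ℝ, 0 < ε → |F (psi r (tv u x n) (tv u x j)) - F (psi r n j)| < ε := by
    intro ε hε
    have h0 : Filter.Tendsto (fun τ : ℝ => x * Real.exp (-τ) ^ 2) Filter.atTop (𝓝 0) := by
      simpa using (Real.tendsto_exp_neg_atTop_nhds_zero.pow 2).const_mul x
    obtain ⟨τ, hτ⟩ := (h0.eventually (unif_tv hΓ hA r u hε)).exists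
    obtain ⟨t, ht⟩ : ∃ t : ℝ, σ * (√(r ^ 2 - 1) * t) = -τ := by
      refine ⟨-σ * τ / √(r ^ 2 - 1), ?_⟩
      rcases hσ with rfl | rfl <;> field_simp
    have h1 := ev_eigen hk hσ hu t
    rw [ht] at h1
    have h2 := hτ _ _ ((hT.det_eq n j t).trans hd)
    rw [← ev_tv (hT.pyth t) h1, ← ev_tv (hT.pyth t) h1] at h2
    have h3 := const_line hA hC hT hd t
    have h4 := const_line hA hC hT ((det_tv u x n j).trans hd) t
    simp only [line] at h3 h4
    rwa [h3, h4] at h2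
  by_contra hne
  exact lt_irrefl _ (hall _ (abs_pos.2 (sub_ne_zero.2 hne)))

theorem outer_const (hΓ : IsSurfaceGroup Γ) (hA : Admissible Γ a F c) (hC : Commutes F) {r : ℝ} (hr : 1 < r)
    {n j n' j' : ℂ} (hd : det n j = 1) (hd' : det n' j' = 1) : F (psi r n j) = F (psi r n' j') := by
  obtain ⟨v, w, hvw, hv, hw⟩ := exists_eigenbasis hr
  have hvv : det v v = 0 := by simp [det]; ring
  have hww : det w w = 0 := by simp [det]; ring
  have hwv : det w v = -1 := by rw [← hvw]; simp [det]; ring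
  have hlin : ∀ (u : ℂ) (a b : ℝ), det u (a * v + b * w) = a * det u v + b * det u w := by
    intro u a b; simp [det]; ring
  have key : ∀ a b c d : ℝ, a * d - b * c = 1 →
      F (psi r (a * v + b * w) (c * v + d * w)) = F (psi r ((1 : ℝ) * v + (0 : ℝ) * w) ((0 : ℝ) * v + (1 : ℝ) * w)) := by
    intro a b c d h
    refine const_of_transvections (G := fun a b c d : ℝ => F (psi r (a * v + b * w) (c * v + d * w))) ?_ ?_ h
    · intro a b c d x h
      have := mautner hΓ hA hC hr (Or.inl rfl) hv x (n := a * v + b * w) (j := c * v + d * w)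
        (by rw [det_comb, h, hvw, one_mul])
      rw [← this, tv, tv, hlin, hlin, hvv, hvw]
      push_cast
      congr 2 <;> ring
    · intro a b c d x h
      have := mautner hΓ hA hC hr (Or.inr rfl) hw (-x) (n := a * v + b * w) (j := c * v + d * w)
        (by rw [det_comb, h, hvw, one_mul])
      rw [← this, tv, tv, hlin, hlin, hww, hwv]
      push_cast
      congr 2 <;> ring
  have hrep : ∀ y : ℂ, y = (det y w : ℝ) * v + (det v y : ℝ) * w := by
    intro y
    simp only [det] at hvw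
    apply Complex.ext
    · rw [add_re, re_ofReal_mul, re_ofReal_mul]; simp only [det]; linear_combination (-y.re) * hvw
    · rw [add_im, im_ofReal_mul, im_ofReal_mul]; simp only [det]; linear_combination (-y.im) * hvw
  have fin : ∀ n j : ℂ, det n j = 1 →
      F (psi r n j) = F (psi r ((1 : ℝ) * v + (0 : ℝ) * w) ((0 : ℝ) * v + (1 : ℝ) * w)) := by
    intro n j h
    have h1 := det_comb (det n w) (det v n) (det j w) (det v j) v w
    rw [← hrep n, ← hrep j, h, hvw, mul_one] at h1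
    have h2 := key _ _ _ _ h1.symm
    rwa [← hrep n, ← hrep j] at h2
  rw [fin n j hd, fin n' j' hd']

theorem outer_fderiv (hΓ : IsSurfaceGroup Γ) (hA : Admissible Γ a F c) (hC : Commutes F) {r : ℝ} (hr : 1 < r) :
    ∃ μ : ℝ, ∀ w ∈ phase, kin w = r ^ 2 → fderiv ℝ F w = μ • fderiv ℝ kin w := by
  have hI : det I 1 = 1 := by simp [det]
  have hr2 : 1 < r ^ 2 := by nlinarith
  have hM : DifferentiableAt ℝ (fun h : ℝ => F (psi (√h) I 1)) (r ^ 2) := by
    have h1 : DifferentiableAt ℝ (fun x : ℝ => psi x I 1) (√(r ^ 2)) :=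
      differentiableAt_psi (n := fun _ => I) (j := fun _ => 1) (differentiableAt_const _)
        (differentiableAt_const _) one_ne_zero
    have h2 : DifferentiableAt ℝ (fun h : ℝ => √h) (r ^ 2) :=
      (Real.hasDerivAt_sqrt (by linarith)).differentiableAt
    exact (hA.differentiableAt (psi_mem _ (by rw [hI]; exact one_pos))).comp (r ^ 2) (h1.comp (r ^ 2) h2)
  refine ⟨deriv (fun h : ℝ => F (psi (√h) I 1)) (r ^ 2), fun w hw hk => ?_⟩
  have h1 := HasDerivAt.comp_hasFDerivAt_of_eq w hM.hasDerivAt (differentiable_kin w).hasFDerivAt hk.symm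
  refine (h1.congr_of_eventuallyEq ?_).fderiv
  have h2 : ∀ᶠ v in 𝓝 w, 1 < kin v :=
    contDiff_kin.continuous.continuousAt.eventually (lt_mem_nhds (by rw [hk]; exact hr2))
  filter_upwards [h2, isOpen_phase.mem_nhds hw] with v hv1 hv
  obtain ⟨n, j, hd, e⟩ := exists_psi hv (Real.sqrt_nonneg (kin v)) (Real.sq_sqrt (kin_nonneg v)).symm
  have := outer_const hΓ hA hC (Real.lt_sqrt_of_sq_lt (by simpa using hv1)) hd hI
  rw [← e] at this
  exact this

/-- Above the critical level: the radial derivative is bounded through any closed geodesic. -/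
theorem outer_deriv (hΓ : IsSurfaceGroup Γ) (hA : Admissible Γ a F c) (hC : Commutes F) {r : ℝ} (hr : 1 < r)
    {l : ℝ} (hl : l ∈ lengths Γ) {n j : ℂ} (hd : det n j = 1) :
    ∃ μ : ℝ, HasDerivAt (fun x => F (psi x n j)) (μ * (2 * r)) r ∧ |μ| < l / (2 * √(r ^ 2 - 1)) := by
  have hd' : 0 < det n j := by rw [hd]; exact one_pos
  have hk : 0 < √(r ^ 2 - 1) := Real.sqrt_pos.2 (by nlinarith)
  obtain ⟨μ, hμ⟩ := outer_fderiv hΓ hA hC hr
  refine ⟨μ, hasDerivAt_radial (c := fun x => psi x n j) (differentiableAt_psi (n := fun _ => n) (j := fun _ => j)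
    (differentiableAt_const _) (differentiableAt_const _) (ne_zero_of_det hd'))
    (Filter.Eventually.of_forall fun x => kin_psi x hd) (hA.differentiableAt (psi_mem r hd'))
    (hμ _ (psi_mem r hd') (kin_psi r hd)), ?_⟩
  obtain ⟨hl0, γ, hγ, htr⟩ := hl
  obtain ⟨v, w, hvw, hv, hw⟩ := exists_eigenbasis hr
  obtain ⟨ε, hε, hε2⟩ : ∃ ε : ℝ, (ε = 1 ∨ ε = -1) ∧ ε * γ 0 0 + ε * γ 1 1 = |γ 0 0 + γ 1 1| := by
    rcases le_total 0 (γ 0 0 + γ 1 1) with h | h
    · exact ⟨1, Or.inl rfl, by rw [abs_of_nonneg h]; ring⟩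
    · exact ⟨-1, Or.inr rfl, by rw [abs_of_nonpos h]; ring⟩
  have hεε : ε * ε = 1 := by rcases hε with rfl | rfl <;> norm_num
  obtain ⟨a', b', c', d', h0, h1, h2, h3, h4⟩ := exists_eigen (A := ε * γ 0 0) (B := ε * γ 0 1) (C := ε * γ 1 0)
    (D := ε * γ 1 1) (l := Real.exp (l / 2)) (Real.one_lt_exp_iff.2 (by linarith))
    (by linear_combination (γ 0 0 * γ 1 1 - γ 0 1 * γ 1 0) * hεε + sl_det γ)
    (by rw [hε2, htr, Real.cosh_eq, Real.exp_neg]; ring)
  have hT := trig_outer hr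
  have hd2 : det (a' * v + b' * w) (c' * v + d' * w) = 1 := by rw [det_comb, h0, hvw, one_mul]
  have e : √(r ^ 2 - 1) * (l / (2 * √(r ^ 2 - 1))) = l / 2 := by field_simp
  have ev1 := ev_eigen hk (Or.inl rfl) hv (l / (2 * √(r ^ 2 - 1)))
  have ev2 := ev_eigen hk (Or.inr rfl) hw (l / (2 * √(r ^ 2 - 1)))
  rw [e, one_mul] at ev1
  rw [e, neg_one_mul, Real.exp_neg] at ev2
  generalize Real.exp (l / 2) = L at h1 h2 h3 h4 ev1 ev2
  generalize L⁻¹ = M at h3 h4 ev2
  have g1 := congrArg (fun x : ℝ => (x : ℂ)) h1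
  have g2 := congrArg (fun x : ℝ => (x : ℂ)) h2
  have g3 := congrArg (fun x : ℝ => (x : ℂ)) h3
  have g4 := congrArg (fun x : ℝ => (x : ℂ)) h4
  simp only [ofReal_add, ofReal_mul] at g1 g2 g3 g4
  refine abs_lt_of_closed hA (by linarith) hT hd2 (by positivity) hγ hε ?_ ?_
    fun t => hμ _ (hT.line_mem hd2 t) (hT.kin_line hd2 t)
  · simp only [e]
    rw [ev_comb, ev1, ev2, gn]
    linear_combination (-v) * g1 - w * g3
  · simp only [e]
    rw [ev_comb, ev1, ev2, gj]
    linear_combination (-v) * g2 - w * g4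

end

theorem fence {m B B' : ℝ → ℝ} {a b : ℝ} (hab : a ≤ b) (hm : ContinuousOn m (Icc a b))
    (hB : ContinuousOn B (Icc a b)) (hB' : ∀ x ∈ Ico a b, HasDerivAt B (B' x) x)
    (h : ∀ x ∈ Ico a b, ∃ (g : ℝ → ℝ) (g' : ℝ), HasDerivAt g g' x ∧ g x = m x ∧ (∀ y, g y ≤ m y) ∧ -B' x ≤ g') :
    m a - m b ≤ B b - B a := by
  have := image_le_of_liminf_slope_right_le_deriv_boundary (f := fun x => -m x) (a := a) (b := b) hm.neg
    (B := fun x => B x - B a - m a) (B' := B') (by simp) ((hB.sub continuousOn_const).sub continuousOn_const)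
    (fun x hx => (((hB' x hx).sub_const _).sub_const _).hasDerivWithinAt) ?_ (right_mem_Icc.2 hab)
  · linarith
  · intro x hx ρ hρ
    obtain ⟨g, g', h1, h2, h3, h4⟩ := h x hx
    have h5 : Filter.Tendsto (slope g x) (𝓝[>] x) (𝓝 g') :=
      (hasDerivAt_iff_tendsto_slope.1 h1).mono_left (nhdsWithin_mono _ fun y hy => ne_of_gt hy)
    have h6 : ∀ᶠ z in 𝓝[>] x, -ρ < slope g x z := h5.eventually (lt_mem_nhds (by linarith))
    refine Filter.Eventually.frequently ?_
    filter_upwards [h6, self_mem_nhdsWithin] with z hz hz'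
    have hzx : 0 < z - x := sub_pos.2 hz'
    rw [slope_def_field, lt_div_iff₀ hzx] at hz
    rw [slope_def_field, div_lt_iff₀ hzx]
    have := h3 z
    linarith

theorem upper {Γ : Subgroup SL(2, ℝ)} {a c : ℝ} {F : ℂ × ℂ → ℝ} (hΓ : IsSurfaceGroup Γ) (ha : 1 < a)
    (hA : Admissible Γ a F c) (hC : Commutes F) {l : ℝ} (hl : l ∈ lengths Γ) :
    c ≤ 2 * Real.pi + l * √(a - 1) := by
  obtain ⟨K, hK, hK1, hcov⟩ := exists_frames hΓ
  have : CompactSpace K := isCompact_iff_compactSpace.1 hK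
  have hI : det I 1 = 1 := by simp [det]
  have : Nonempty K := by
    obtain ⟨γ, -, h⟩ := hcov I 1 hI
    exact ⟨⟨_, h⟩⟩
  let φ : ℝ → K → ℝ := fun r q => F (psi r q.1.1 q.1.2)
  have hφ : Continuous ↿φ := by
    refine continuous_iff_continuousAt.2 fun z => ?_
    have c1 : Continuous fun z : ℝ × K => (z.1, z.2.1.1, z.2.1.2) := by fun_prop
    have e1 := ContinuousAt.comp_of_eq
      (continuousAt_frame hA z.1 (n := z.2.1.1) (j := z.2.1.2) (by rw [hK1 _ z.2.2]; exact one_pos))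
      (c1.continuousAt (x := z)) rfl
    exact e1
  let m : ℝ → ℝ := fun r => sSup (φ r '' univ)
  have hm : Continuous m := isCompact_univ.continuous_sSup hφ
  have hφr : ∀ r, Continuous (φ r) := fun r => hφ.comp (Continuous.prodMk_right r)
  have hle : ∀ r n j, det n j = 1 → F (psi r n j) ≤ m r := by
    intro r n j hd
    obtain ⟨γ, hγ, h⟩ := hcov n j hd
    rw [← hA.frame_inv hγ r hd]
    exact le_csSup (isCompact_univ.image (hφr r)).bddAbove ⟨⟨_, h⟩, mem_univ _, rfl⟩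
  have hatt : ∀ r, ∃ n j, det n j = 1 ∧ F (psi r n j) = m r := by
    intro r
    obtain ⟨q, -, hq⟩ := (isCompact_univ.image (hφr r)).sSup_mem (univ_nonempty.image _)
    exact ⟨q.1.1, q.1.2, hK1 _ q.2, hq⟩
  have hl0 : 0 < l := hl.1
  have hpi := Real.pi_pos
  have hin : ∀ x ∈ Ioc (0 : ℝ) 1, m x ≤ m 1 + 2 * Real.pi := by
    intro x hx
    have := fence (m := m) (B := fun r => -(2 * Real.pi * √(1 - r ^ 2)))
      (B' := fun r => 2 * r * (Real.pi / √(1 - r ^ 2))) hx.2 hm.continuousOn (by fun_prop) ?_ ?_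
    · have h1 : √(1 - x ^ 2) ≤ 1 := Real.sqrt_le_one.2 (by nlinarith)
      simp at this
      nlinarith
    · intro y hy
      have hy0 : 0 < y := lt_of_lt_of_le hx.1 hy.1
      have h1 : 0 < 1 - y ^ 2 := by nlinarith [hy.2]
      have h2 := Real.sqrt_pos.2 h1
      refine HasDerivAt.congr_deriv
        ((((hasDerivAt_pow 2 y).const_sub 1).sqrt h1.ne').const_mul (2 * Real.pi)).neg ?_
      simp; field_simp
    · intro y hy
      have hy0 : 0 < y := lt_of_lt_of_le hx.1 hy.1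
      obtain ⟨n, j, hd, e⟩ := hatt y
      obtain ⟨μ, h1, h2⟩ := inner_deriv hA hC hy0 hy.2 hd (fun n' j' h => by rw [e]; exact hle y n' j' h)
      refine ⟨_, _, h1, e, fun z => hle z n j hd, ?_⟩
      nlinarith [(abs_lt.1 h2).1]
  have hsa : 1 < √a := Real.lt_sqrt_of_sq_lt (by simpa using ha)
  have hma : m (√a) = 0 := by
    obtain ⟨n, j, hd, e⟩ := hatt (√a)
    obtain ⟨b, hb, h0⟩ := hA.support
    rw [← e]
    exact h0 _ (psi_mem _ (by rw [hd]; exact one_pos)) (by rw [kin_psi _ hd, Real.sq_sqrt (by linarith)]; exact hb.le)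
  have hout : ∀ x ∈ Ioc (1 : ℝ) (√a), m x ≤ l * √(a - 1) := by
    intro x hx
    have := fence (m := m) (B := fun r => l * √(r ^ 2 - 1))
      (B' := fun r => 2 * r * (l / (2 * √(r ^ 2 - 1)))) hx.2 hm.continuousOn (by fun_prop) ?_ ?_
    · simp only [hma, Real.sq_sqrt (show 0 ≤ a by linarith)] at this
      have h1 : 0 ≤ l * √(x ^ 2 - 1) := by positivity
      linarith
    · intro y hy
      have hy0 : 1 < y := lt_of_lt_of_le hx.1 hy.1
      have h1 : 0 < y ^ 2 - 1 := by nlinarith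
      have h2 := Real.sqrt_pos.2 h1
      refine HasDerivAt.congr_deriv ((((hasDerivAt_pow 2 y).sub_const 1).sqrt h1.ne').const_mul l) ?_
      simp; field_simp
    · intro y hy
      have hy0 : 1 < y := lt_of_lt_of_le hx.1 hy.1
      obtain ⟨n, j, hd, e⟩ := hatt y
      obtain ⟨μ, h1, h2⟩ := outer_deriv hΓ hA hC hy0 hl hd
      refine ⟨_, _, h1, e, fun z => hle z n j hd, ?_⟩
      nlinarith [(abs_lt.1 h2).1]
  have hin' : ∀ x ∈ Icc (0 : ℝ) 1, m x ≤ m 1 + 2 * Real.pi := by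
    rw [← closure_Ioc zero_ne_one]
    exact fun x hx => (isClosed_le hm continuous_const).closure_subset_iff.2 hin hx
  have hout' : ∀ x ∈ Icc (1 : ℝ) (√a), m x ≤ l * √(a - 1) := by
    rw [← closure_Ioc hsa.ne]
    exact fun x hx => (isClosed_le hm continuous_const).closure_subset_iff.2 hout hx
  obtain ⟨V, -, ⟨w, hw⟩, hV⟩ := hA.plateau
  obtain ⟨hp, hk, hc⟩ := hV w hw
  obtain ⟨r, hr, hkr⟩ : ∃ r : ℝ, 0 ≤ r ∧ kin w = r ^ 2 :=
    ⟨√(kin w), Real.sqrt_nonneg _, (Real.sq_sqrt (kin_nonneg w)).symm⟩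
  obtain ⟨n, j, hd, rfl⟩ := exists_psi hp hr hkr
  have h1 := hle r n j hd
  rw [hc] at h1
  rcases le_total r 1 with h | h
  · have := hin' r ⟨hr, h⟩
    have := hout' 1 ⟨le_rfl, hsa.le⟩
    linarith
  · have := hout' r ⟨h, Real.le_sqrt_of_sq_le (by linarith)⟩
    linarith

end Pool.Agent.HZ64
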