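import Pool.Agent.MP_6c7bdb_gt.FI.Frame

namespace Pool.Agent.HZ64

open scoped MatrixGroups ContDiff
open Complex Filter Topology

/-- The new length of the covector. -/
noncomputable def rho (t r : ℝ) : ℝ := √(1 + (r ^ 2 - 1) / t ^ 2)

/-- The stretching factor of the frame. -/
noncomputable def sc (t r : ℝ) : ℝ := (r + 1) / (t * (rho t r + 1))

/-- The direction of the covector. -/
noncomputable def uu (w : ℂ × ℂ) : ℂ := (w.1.im : ℂ) * w.2 / (√(kin w) : ℝ)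

/-- The conformally symplectic map that moves the energy levels away from the horocycle level. -/
noncomputable def Phi (t : ℝ) (w : ℂ × ℂ) : ℂ × ℂ :=
  (((sc t (√(kin w)) + 1 : ℝ) * w.1 + (sc t (√(kin w)) - 1 : ℝ) * ((starRingEnd ℂ) w.1 * uu w)) /
      ((sc t (√(kin w)) + 1 : ℝ) + (sc t (√(kin w)) - 1 : ℝ) * uu w),
    (rho t (√(kin w)) / (4 * √(kin w) * sc t (√(kin w))) : ℝ) * w.2 *
      ((sc t (√(kin w)) + 1 : ℝ) + (sc t (√(kin w)) - 1 : ℝ) * (starRingEnd ℂ) (uu w)) ^ 2)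

/-- The domain of `Phi`. -/
def dom (t : ℝ) : Set (ℂ × ℂ) := {w | w ∈ phase ∧ 0 < kin w ∧ 1 - t ^ 2 < kin w}

theorem isOpen_dom (t : ℝ) : IsOpen (dom t) :=
  isOpen_phase.inter ((isOpen_lt continuous_const contDiff_kin.continuous).inter
    (isOpen_lt continuous_const contDiff_kin.continuous))

theorem rho_nonneg (t r : ℝ) : 0 ≤ rho t r := Real.sqrt_nonneg _

theorem sc_pos {t r : ℝ} (ht : 0 < t) (hr : 0 < r) : 0 < sc t r := by
  have := rho_nonneg t r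
  unfold sc; positivity

theorem arg_pos {t r : ℝ} (ht : 0 < t) (h : 1 - t ^ 2 < r ^ 2) : 0 < 1 + (r ^ 2 - 1) / t ^ 2 := by
  have : 1 + (r ^ 2 - 1) / t ^ 2 = (r ^ 2 - (1 - t ^ 2)) / t ^ 2 := by field_simp; ring
  rw [this]; exact div_pos (by linarith) (by positivity)

theorem rho_pos {t r : ℝ} (ht : 0 < t) (h : 1 - t ^ 2 < r ^ 2) : 0 < rho t r := Real.sqrt_pos.2 (arg_pos ht h)

theorem rho_sq {t r : ℝ} (ht : 0 < t) (h : 1 - t ^ 2 < r ^ 2) : rho t r ^ 2 = 1 + (r ^ 2 - 1) / t ^ 2 :=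
  Real.sq_sqrt (arg_pos ht h).le

theorem lin_diag (s : ℝ) (x : ℂ) :
    ((s + 1 : ℝ) : ℂ) * x + ((s - 1 : ℝ) : ℂ) * (starRingEnd ℂ) x = 2 * lin s 0 0 1 x := by
  apply Complex.ext <;> simp [lin_re, lin_im] <;> ring

theorem sqrt_kin_psi {r : ℝ} (hr : 0 < r) {n j : ℂ} (h : 0 < det n j) : √(kin (psi r n j)) = det n j * r := by
  rw [kin_psi' r h, Real.sqrt_sq (by positivity)]

theorem uu_psi {r : ℝ} (hr : 0 < r) {n j : ℂ} (h : 0 < det n j) : uu (psi r n j) = (starRingEnd ℂ) j / j := by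
  have hj := ne_zero_of_det h
  have hj' : (starRingEnd ℂ) j ≠ 0 := by simpa using hj
  have hN : ((j.re ^ 2 + j.im ^ 2 : ℝ) : ℂ) = j * (starRingEnd ℂ) j := by
    rw [mul_conj, normSq_apply]; push_cast; ring
  have hr' : (r : ℂ) ≠ 0 := by exact_mod_cast hr.ne'
  have hD : ((det n j : ℝ) : ℂ) ≠ 0 := by exact_mod_cast h.ne'
  rw [uu, sqrt_kin_psi hr h, psi_im, ofReal_div, hN, ofReal_mul]
  simp only [psi]
  field_simp

theorem Phi_psi {t r : ℝ} (ht : 0 < t) (hr : 0 < r) {n j : ℂ} (h : 0 < det n j) :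
    Phi t (psi r n j) = psi (rho t (det n j * r) / (det n j * sc t (det n j * r)))
      (lin (sc t (det n j * r)) 0 0 1 n) (lin (sc t (det n j * r)) 0 0 1 j) := by
  have hj := ne_zero_of_det h
  have hj' : (starRingEnd ℂ) j ≠ 0 := by simpa using hj
  have hs := sc_pos ht (mul_pos h hr)
  have hr' : (r : ℂ) ≠ 0 := by exact_mod_cast hr.ne'
  have hD : ((det n j : ℝ) : ℂ) ≠ 0 := by exact_mod_cast h.ne'
  unfold Phi
  rw [uu_psi hr h, sqrt_kin_psi hr h]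
  generalize sc t (det n j * r) = s at hs ⊢
  generalize rho t (det n j * r) = ρ
  have hs' : (s : ℂ) ≠ 0 := by exact_mod_cast hs.ne'
  have e1 : ((s + 1 : ℝ) : ℂ) * (psi r n j).1 + ((s - 1 : ℝ) : ℂ) *
      ((starRingEnd ℂ) (psi r n j).1 * ((starRingEnd ℂ) j / j)) = 2 * lin s 0 0 1 n / j := by
    rw [← lin_diag]
    simp only [psi, map_div₀]
    field_simp
  have e2 : ((s + 1 : ℝ) : ℂ) + ((s - 1 : ℝ) : ℂ) * ((starRingEnd ℂ) j / j) = 2 * lin s 0 0 1 j / j := by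
    rw [← lin_diag]
    field_simp
  have e3 : ((s + 1 : ℝ) : ℂ) + ((s - 1 : ℝ) : ℂ) * (starRingEnd ℂ) ((starRingEnd ℂ) j / j) =
      2 * (starRingEnd ℂ) (lin s 0 0 1 j) / (starRingEnd ℂ) j := by
    have := congrArg (starRingEnd ℂ) e2
    simpa only [map_add, map_mul, conj_ofReal, map_div₀, map_ofNat] using this
  refine Prod.ext ?_ ?_
  · show _ = lin s 0 0 1 n / lin s 0 0 1 j
    simp only []
    rw [e1, e2, div_div_div_cancel_right₀ hj, mul_div_mul_left _ _ two_ne_zero]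
  · simp only []
    rw [e3]
    simp only [psi]
    push_cast
    field_simp
    ring

theorem exists_frame {t : ℝ} {w : ℂ × ℂ} (hw : w ∈ dom t) :
    ∃ r n j, 0 < r ∧ 1 - t ^ 2 < r ^ 2 ∧ det n j = 1 ∧ w = psi r n j := by
  have hk : kin w = √(kin w) ^ 2 := (Real.sq_sqrt (kin_nonneg w)).symm
  obtain ⟨n, j, hd, e⟩ := exists_psi hw.1 (Real.sqrt_nonneg _) hk
  exact ⟨_, n, j, Real.sqrt_pos.2 hw.2.1, by rw [← hk]; exact hw.2.2, hd, e⟩

theorem Phi_psi_one {t r : ℝ} (ht : 0 < t) (hr : 0 < r) {n j : ℂ} (h : det n j = 1) :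
    Phi t (psi r n j) = psi (rho t r / sc t r) (lin (sc t r) 0 0 1 n) (lin (sc t r) 0 0 1 j) := by
  rw [Phi_psi ht hr (by rw [h]; exact one_pos), h, one_mul, one_mul]

theorem det_diag (s : ℝ) (n j : ℂ) : det (lin s 0 0 1 n) (lin s 0 0 1 j) = s * det n j := by
  rw [det_lin]; ring

theorem Phi_mem {t : ℝ} (ht : 0 < t) {w : ℂ × ℂ} (hw : w ∈ dom t) :
    Phi t w ∈ phase ∧ kin (Phi t w) = 1 + (kin w - 1) / t ^ 2 := by
  obtain ⟨r, n, j, hr, h1, hd, rfl⟩ := exists_frame hw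
  have hs := sc_pos ht hr
  have hd' : 0 < det (lin (sc t r) 0 0 1 n) (lin (sc t r) 0 0 1 j) := by rw [det_diag, hd, mul_one]; exact hs
  rw [Phi_psi_one ht hr hd]
  refine ⟨psi_mem _ hd', ?_⟩
  rw [kin_psi' _ hd', kin_psi r hd, det_diag, hd, ← rho_sq ht h1]
  field_simp

theorem act_dom {t : ℝ} (γ : SL(2, ℝ)) {w : ℂ × ℂ} (hw : w ∈ dom t) : act γ w ∈ dom t := by
  obtain ⟨h1, h2⟩ := act_mem γ hw.1
  exact ⟨h1, by rw [h2]; exact hw.2.1, by rw [h2]; exact hw.2.2⟩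

theorem Phi_act {t : ℝ} (ht : 0 < t) (γ : SL(2, ℝ)) {w : ℂ × ℂ} (hw : w ∈ dom t) :
    Phi t (act γ w) = act γ (Phi t w) := by
  obtain ⟨r, n, j, hr, -, hd, rfl⟩ := exists_frame hw
  have hs := sc_pos ht hr
  have hd' : 0 < det (lin (sc t r) 0 0 1 n) (lin (sc t r) 0 0 1 j) := by rw [det_diag, hd, mul_one]; exact hs
  rw [act_psi γ r (by rw [hd]; exact one_pos), Phi_psi_one ht hr hd, Phi_psi_one ht hr (by rw [det_g, hd]),
    act_psi γ _ hd']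
  simp only [gn, gj, lin_comb]

theorem Phi_surj {t : ℝ} (ht : 0 < t) {w : ℂ × ℂ} (hw : w ∈ phase) (h0 : 0 < kin w)
    (h1 : 0 < 1 + t ^ 2 * (kin w - 1)) : ∃ x ∈ dom t, Phi t x = w := by
  have hk : kin w = √(kin w) ^ 2 := (Real.sq_sqrt (kin_nonneg w)).symm
  obtain ⟨n, j, hd, e⟩ := exists_psi hw (Real.sqrt_nonneg _) hk
  obtain ⟨r, hr⟩ : ∃ r, r = √(1 + t ^ 2 * (kin w - 1)) := ⟨_, rfl⟩
  have hr0 : 0 < r := by rw [hr]; exact Real.sqrt_pos.2 h1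
  have hr2 : r ^ 2 = 1 + t ^ 2 * (kin w - 1) := by rw [hr]; exact Real.sq_sqrt h1.le
  have hρ : rho t r = √(kin w) := by
    rw [rho, hr2]; congr 1; field_simp; ring
  have hs := sc_pos ht hr0
  have hD : det (lin (sc t r)⁻¹ 0 0 1 n) (lin (sc t r)⁻¹ 0 0 1 j) = (sc t r)⁻¹ := by rw [det_diag, hd, mul_one]
  have hD0 : 0 < det (lin (sc t r)⁻¹ 0 0 1 n) (lin (sc t r)⁻¹ 0 0 1 j) := by rw [hD]; positivity
  have hR : (sc t r)⁻¹ * (sc t r * r) = r := by field_simp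
  have hl : ∀ x : ℂ, lin (sc t r) 0 0 1 (lin (sc t r)⁻¹ 0 0 1 x) = x := fun x => by
    apply Complex.ext
    · simp only [lin_re, lin_im]; field_simp; ring
    · simp [lin_re, lin_im]
  refine ⟨psi (sc t r * r) (lin (sc t r)⁻¹ 0 0 1 n) (lin (sc t r)⁻¹ 0 0 1 j), ⟨psi_mem _ hD0, ?_, ?_⟩, ?_⟩
  · rw [kin_psi' _ hD0, hD, hR]; positivity
  · rw [kin_psi' _ hD0, hD, hR, hr2]
    have : 0 < t ^ 2 * kin w := by positivity
    linarith
  · rw [Phi_psi ht (by positivity) hD0, hD, hR, hl, hl, inv_mul_cancel₀ hs.ne', div_one, hρ, ← e]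

theorem contDiffAt_rho {t r : ℝ} (ht : 0 < t) (h : 1 - t ^ 2 < r ^ 2) : ContDiffAt ℝ ∞ (rho t) r := by
  unfold rho
  exact ContDiffAt.sqrt (by fun_prop) (arg_pos ht h).ne'

theorem contDiffAt_sc {t r : ℝ} (ht : 0 < t) (h : 1 - t ^ 2 < r ^ 2) : ContDiffAt ℝ ∞ (sc t) r := by
  have h1 := contDiffAt_rho ht h
  have h2 := rho_nonneg t r
  unfold sc
  exact ContDiffAt.div (by fun_prop) (contDiffAt_const.mul (h1.add contDiffAt_const)) (by positivity)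

theorem contDiffAt_Phi {t : ℝ} (ht : 0 < t) {w : ℂ × ℂ} (hw : w ∈ dom t) : ContDiffAt ℝ ∞ (Phi t) w := by
  have hq : 0 < √(kin w) := Real.sqrt_pos.2 hw.2.1
  have hq2 : 1 - t ^ 2 < √(kin w) ^ 2 := by rw [Real.sq_sqrt (kin_nonneg w)]; exact hw.2.2
  have h1 : ContDiffAt ℝ ∞ (fun w => √(kin w)) w := contDiff_kin.contDiffAt.sqrt hw.2.1.ne'
  have h2 : ContDiffAt ℝ ∞ (fun w => sc t (√(kin w))) w :=
    ContDiffAt.comp (g := sc t) (f := fun w => √(kin w)) w (contDiffAt_sc ht hq2) h1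
  have h3 : ContDiffAt ℝ ∞ (fun w => rho t (√(kin w))) w :=
    ContDiffAt.comp (g := rho t) (f := fun w => √(kin w)) w (contDiffAt_rho ht hq2) h1
  have hs := sc_pos ht hq
  have hc : ∀ {f : ℂ × ℂ → ℝ}, ContDiffAt ℝ ∞ f w → ContDiffAt ℝ ∞ (fun w => ((f w : ℝ) : ℂ)) w :=
    fun hf => ofRealCLM.contDiff.contDiffAt.comp w hf
  have hb : ∀ {f : ℂ × ℂ → ℂ}, ContDiffAt ℝ ∞ f w → ContDiffAt ℝ ∞ (fun w => (starRingEnd ℂ) (f w)) w :=
    fun hf => conjCLE.contDiff.contDiffAt.comp w hf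
  have hdiv : ∀ {f g : ℂ × ℂ → ℂ}, ContDiffAt ℝ ∞ f w → ContDiffAt ℝ ∞ g w → g w ≠ 0 →
      ContDiffAt ℝ ∞ (fun w => f w / g w) w := fun hf hg h0 => by
    simp only [div_eq_mul_inv]
    exact hf.mul (hg.inv h0)
  have h4 : ContDiffAt ℝ ∞ uu w := by
    unfold uu
    refine hdiv ((hc (imCLM.contDiff.comp contDiff_fst).contDiffAt).mul contDiffAt_snd) (hc h1) ?_
    exact_mod_cast hq.ne'
  have h5 := hc (h2.add (contDiffAt_const (c := (1 : ℝ))))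
  have h6 := hc (h2.sub (contDiffAt_const (c := (1 : ℝ))))
  have h7 := hc (h3.div (((contDiffAt_const (c := (4 : ℝ))).mul h1).mul h2) (by positivity))
  unfold Phi
  refine ContDiffAt.prodMk (hdiv ((h5.mul contDiffAt_fst).add (h6.mul ((hb contDiffAt_fst).mul h4)))
    (h5.add (h6.mul h4)) ?_) ((h7.mul contDiffAt_snd).mul ((h5.add (h6.mul (hb h4))).pow 2))
  obtain ⟨r, n, j, hr, -, hd, rfl⟩ := exists_frame hw
  have hd0 : 0 < det n j := by rw [hd]; exact one_pos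
  have hj := ne_zero_of_det hd0
  rw [uu_psi hr hd0]
  generalize sc t (√(kin (psi r n j))) = s at hs ⊢
  have e2 : ((s + 1 : ℝ) : ℂ) + ((s - 1 : ℝ) : ℂ) * ((starRingEnd ℂ) j / j) = 2 * lin s 0 0 1 j / j := by
    rw [← lin_diag]
    field_simp
  rw [e2]
  have := ne_zero_of_det (n := lin s 0 0 1 n) (j := lin s 0 0 1 j) (by rw [det_diag, hd, mul_one]; exact hs)
  exact div_ne_zero (mul_ne_zero two_ne_zero this) hj

end Pool.Agent.HZ64
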