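import Pool.Agent.MP_6c7bdb_gt.FI.Basic

namespace Pool.Agent.HZ64

open scoped MatrixGroups ContDiff Topology
open Complex Set

theorem exists_frames {Γ : Subgroup SL(2, ℝ)} (hΓ : IsSurfaceGroup Γ) :
    ∃ K : Set (ℂ × ℂ), IsCompact K ∧ (∀ q ∈ K, det q.1 q.2 = 1) ∧
      ∀ n j, det n j = 1 → ∃ γ ∈ Γ, (gn γ n j, gj γ n j) ∈ K := by
  obtain ⟨K, hK, hKp, hcov⟩ := hΓ.cocompact
  have hc : ContinuousOn (fun z : ℂ × ℂ => (z.1 * (z.2 / (√z.1.im : ℝ)), z.2 / (√z.1.im : ℝ)))
      (K ×ˢ Metric.sphere (0 : ℂ) 1) := by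
    have h1 : Continuous fun z : ℂ × ℂ => ((√z.1.im : ℝ) : ℂ) := by fun_prop
    have h2 : ContinuousOn (fun z : ℂ × ℂ => z.2 / ((√z.1.im : ℝ) : ℂ)) (K ×ˢ Metric.sphere (0 : ℂ) 1) :=
      continuous_snd.continuousOn.div h1.continuousOn fun z hz => by
        have := Real.sqrt_pos.2 (hKp z.1 hz.1)
        exact_mod_cast this.ne'
    exact (continuous_fst.continuousOn.mul h2).prodMk h2
  refine ⟨_, (hK.prod (isCompact_sphere 0 1)).image_of_continuousOn hc, ?_, ?_⟩
  · rintro _ ⟨⟨z, u⟩, ⟨hz, hu⟩, rfl⟩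
    have hy := hKp z hz
    have hq := Real.sqrt_pos.2 hy
    have hu' : u.re ^ 2 + u.im ^ 2 = 1 := by
      have : ‖u‖ = 1 := by simpa using hu
      have h2 := Complex.sq_norm u
      rw [this, normSq_apply] at h2
      linarith
    have hs := Real.sq_sqrt hy.le
    simp only [det, mul_im, mul_re, div_ofReal_re, div_ofReal_im]
    field_simp
    linear_combination z.im * hu' - hs
  · intro n j hd
    have hd' : 0 < det n j := by rw [hd]; exact one_pos
    obtain ⟨γ, hγ, hm⟩ := hcov (n / j) (psi_mem 0 hd')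
    rw [mob_div γ hd'] at hm
    refine ⟨γ, hγ, ?_⟩
    have hd2 : det (gn γ n j) (gj γ n j) = 1 := by rw [det_g, hd]
    generalize gn γ n j = n' at hm hd2
    generalize gj γ n j = j' at hm hd2
    have hd3 : 0 < det n' j' := by rw [hd2]; exact one_pos
    have hj := ne_zero_of_det hd3
    have hp := normSq_pos_of_det hd3
    have hy : (n' / j').im = 1 / (j'.re ^ 2 + j'.im ^ 2) := by rw [← hd2]; exact psi_im 0 n' j'
    have hy0 := hKp _ hm
    have hq : ((√(n' / j').im : ℝ) : ℂ) ≠ 0 := by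
      have := Real.sqrt_pos.2 hy0
      exact_mod_cast this.ne'
    refine ⟨(n' / j', j' * (√(n' / j').im : ℝ)), ⟨hm, ?_⟩, ?_⟩
    · simp only [mem_sphere_iff_norm, sub_zero, norm_mul, norm_real, Real.norm_eq_abs]
      have h2 := Complex.sq_norm j'
      rw [normSq_apply] at h2
      have h3 : (‖j'‖ * |√(n' / j').im|) ^ 2 = 1 := by
        rw [mul_pow, sq_abs, Real.sq_sqrt hy0.le, hy, h2]
        field_simp
      have h4 : 0 ≤ ‖j'‖ * |√(n' / j').im| := by positivity
      nlinarith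
    · simp only [mul_div_cancel_right₀ _ hq]
      rw [div_mul_cancel₀ _ hj]

theorem continuousAt_psi {r : ℝ} {n j : ℂ} (hj : j ≠ 0) :
    ContinuousAt (fun x : ℝ × ℂ × ℂ => psi x.1 x.2.1 x.2.2) (r, n, j) := by
  unfold psi
  refine ContinuousAt.prodMk (ContinuousAt.div (by fun_prop) (by fun_prop) hj) ?_
  exact (continuous_ofReal.comp continuous_fst).continuousAt.mul
    ((continuous_conj.comp (continuous_snd.comp continuous_snd)).continuousAt.pow 2)

theorem hasDerivAt_radial {F : ℂ × ℂ → ℝ} {c : ℝ → ℂ × ℂ} {r μ : ℝ} (hc : DifferentiableAt ℝ c r)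
    (hk : ∀ᶠ x in 𝓝 r, kin (c x) = x ^ 2) (hF : DifferentiableAt ℝ F (c r))
    (hμ : fderiv ℝ F (c r) = μ • fderiv ℝ kin (c r)) : HasDerivAt (fun x => F (c x)) (μ * (2 * r)) r := by
  have h1 := (differentiable_kin (c r)).hasFDerivAt.comp_hasDerivAt r hc.hasDerivAt
  have h2 : HasDerivAt (kin ∘ c) (2 * r) r := by
    refine HasDerivAt.congr_of_eventuallyEq (by simpa using hasDerivAt_pow 2 r) hk
  have h3 := h1.unique h2
  refine HasDerivAt.congr_deriv (hF.hasFDerivAt.comp_hasDerivAt r hc.hasDerivAt) ?_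
  rw [hμ, ← h3]; simp

theorem differentiableAt_psi {n j : ℝ → ℂ} {r : ℝ} (hn : DifferentiableAt ℝ n r) (hj : DifferentiableAt ℝ j r)
    (h0 : j r ≠ 0) : DifferentiableAt ℝ (fun x => psi x (n x) (j x)) r := by
  have h1 := hn.hasDerivAt.div hj.hasDerivAt h0
  have h2 : HasDerivAt (fun s => (starRingEnd ℂ) (j s)) ((starRingEnd ℂ) (deriv j r)) r := hj.hasDerivAt.star
  have h3 := (hasDerivAt_id' r).ofReal_comp.mul (h2.pow 2)
  exact (h1.prodMk h3).differentiableAt

section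
variable {Γ : Subgroup SL(2, ℝ)} {a c : ℝ} {F : ℂ × ℂ → ℝ}

theorem Admissible.contDiffAt (hA : Admissible Γ a F c) {w : ℂ × ℂ} (hw : w ∈ phase) : ContDiffAt ℝ ∞ F w :=
  hA.smooth.contDiffAt (isOpen_phase.mem_nhds hw)

theorem Admissible.differentiableAt (hA : Admissible Γ a F c) {w : ℂ × ℂ} (hw : w ∈ phase) :
    DifferentiableAt ℝ F w := (hA.contDiffAt hw).differentiableAt (by simp)

theorem Admissible.frame_inv (hA : Admissible Γ a F c) {γ : SL(2, ℝ)} (hγ : γ ∈ Γ) (r : ℝ) {n j : ℂ}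
    (hd : det n j = 1) : F (psi r (gn γ n j) (gj γ n j)) = F (psi r n j) := by
  have hd' : 0 < det n j := by rw [hd]; exact one_pos
  rw [← act_psi γ r hd', hA.invariant γ hγ _ (psi_mem r hd')]

theorem const_line (hA : Admissible Γ a F c) (hC : Commutes F) {r : ℝ} {C S : ℝ → ℝ}
    (hT : TrigPair (r ^ 2 - 1) C S) {n j : ℂ} (hd : det n j = 1) (t : ℝ) :
    F (line r C S n j t) = F (psi r n j) := by
  have h1 : ∀ t, HasDerivAt (fun s => F (line r C S n j (1 * s))) 0 t := by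
    intro t
    have hp := hT.line_mem hd (1 * t)
    refine HasDerivAt.congr_deriv
      ((hA.differentiableAt hp).hasFDerivAt.comp_hasDerivAt t (hT.hasDerivAt_line 1 hd t)) ?_
    exact hC _ hp _ ((isHamVec_iff hp (μ := 1) (by simp) _).2 rfl)
  have := is_const_of_deriv_eq_zero (fun t => (h1 t).differentiableAt) (fun t => (h1 t).deriv) t 0
  simpa [hT.line_zero] using this

/-- A closed magnetic orbit of period `T₀` along which `dF = μ dH` forces `|μ| < T₀`. -/
theorem abs_lt_of_closed (hA : Admissible Γ a F c) {r μ T₀ ε : ℝ} {C S : ℝ → ℝ} (hr : 0 < r)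
    (hT : TrigPair (r ^ 2 - 1) C S) {n j : ℂ} (hd : det n j = 1) (hT₀ : 0 < T₀) {γ : SL(2, ℝ)} (hγ : γ ∈ Γ)
    (hε : ε = 1 ∨ ε = -1) (hn : ev r (C T₀) (S T₀) n = ε * gn γ n j) (hj : ev r (C T₀) (S T₀) j = ε * gj γ n j)
    (hμ : ∀ t, fderiv ℝ F (line r C S n j t) = μ • fderiv ℝ kin (line r C S n j t)) : |μ| < T₀ := by
  by_contra hle
  rw [not_lt] at hle
  have hμ0 : 0 < |μ| := lt_of_lt_of_le hT₀ hle
  have hstep : ∀ t, line r C S n j (t + T₀) = act γ (line r C S n j t) := by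
    intro t
    rw [line, line, act_psi γ r (by rw [hT.det_eq, hd]; exact one_pos), hT.ev_add, hT.ev_add, hn, hj,
      ← psi_sign r hε (gn γ _ _)]
    congr 1
    · have := ev_comb r (C t) (S t) (ε * γ 0 0) (ε * γ 0 1) n j
      simp only [gn]
      push_cast at this
      rw [mul_add, mul_add, ← mul_assoc, ← mul_assoc, ← mul_assoc, ← mul_assoc, this]
    · have := ev_comb r (C t) (S t) (ε * γ 1 0) (ε * γ 1 1) n j
      simp only [gj]
      push_cast at this
      rw [mul_add, mul_add, ← mul_assoc, ← mul_assoc, ← mul_assoc, ← mul_assoc, this]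
  have hinv : ∀ t, line r C S n j (t - T₀) = act γ⁻¹ (line r C S n j t) := by
    intro t
    have h := hstep (t - T₀)
    rw [sub_add_cancel] at h
    have hd1 : det (ev r (C (t - T₀)) (S (t - T₀)) n) (ev r (C (t - T₀)) (S (t - T₀)) j) = 1 := by
      rw [hT.det_eq, hd]
    rw [h, line]
    generalize ev r (C (t - T₀)) (S (t - T₀)) n = n' at hd1
    generalize ev r (C (t - T₀)) (S (t - T₀)) j = j' at hd1
    have hdet : ((γ 0 0 : ℝ) : ℂ) * (γ 1 1 : ℝ) - (γ 0 1 : ℝ) * (γ 1 0 : ℝ) = 1 := by exact_mod_cast sl_det γ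
    rw [act_psi γ r (by rw [hd1]; exact one_pos), act_psi γ⁻¹ r (by rw [det_g, hd1]; exact one_pos)]
    congr 1
    · simp only [gn, gj, Matrix.SpecialLinearGroup.SL2_inv_expl]
      simp
      linear_combination (-n') * hdet
    · simp only [gn, gj, Matrix.SpecialLinearGroup.SL2_inv_expl]
      simp
      linear_combination (-j') * hdet
  have horb : IsOrbit F fun s => line r C S n j (μ * s) := fun t =>
    ⟨hT.line_mem hd _, _, hT.hasDerivAt_line μ hd t, (isHamVec_iff (hT.line_mem hd _) (hμ _) _).2 rfl⟩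
  have hconst : ∀ t, line r C S n j (μ * t) = line r C S n j (μ * 0) := by
    have h1 : 0 < T₀ / |μ| := div_pos hT₀ hμ0
    have h2 : T₀ / |μ| ≤ 1 := (div_le_one hμ0).2 hle
    rcases lt_or_gt_of_ne (abs_pos.1 hμ0) with h | h
    · refine hA.slow _ horb _ h1 h2 γ⁻¹ (Γ.inv_mem hγ) fun t => ?_
      rw [← hinv]
      congr 1
      rw [abs_of_neg h]
      have := h.ne
      field_simp; ring
    · refine hA.slow _ horb _ h1 h2 γ hγ fun t => ?_
      rw [← hstep]
      congr 1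
      rw [abs_of_pos h]
      have := h.ne'
      field_simp
  have h0 : HasDerivAt (fun s => line r C S n j (μ * s)) 0 0 := by
    rw [show (fun s => line r C S n j (μ * s)) = fun _ => line r C S n j (μ * 0) from funext hconst]
    exact hasDerivAt_const _ _
  have h1 := (hT.hasDerivAt_line μ hd 0).unique h0
  have hp := hT.line_mem hd (μ * 0)
  have hk := hT.kin_line hd (μ * 0)
  generalize line r C S n j (μ * 0) = w at h1 hp hk
  have h2 : XH w = 0 := by
    rcases smul_eq_zero.1 h1 with h | h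
    · exact absurd h (abs_pos.1 hμ0)
    · exact h
  have h3 := XH_1re w
  have h4 := XH_1im w
  rw [h2] at h3 h4
  simp only [Prod.fst_zero, zero_re, zero_im] at h3 h4
  have h5 : kin w * w.1.im ^ 2 * 4 = 0 := by
    rw [kin]
    linear_combination (-(2 * w.1.im ^ 2 * w.2.re)) * h3 - (2 * w.1.im ^ 2 * w.2.im) * h4
  have hy : 0 < w.1.im := hp
  rw [hk] at h5
  exact absurd h5 (by positivity)

theorem multiplier (hA : Admissible Γ a F c) {w : ℂ × ℂ} (hw : w ∈ phase) (hk : 0 < kin w)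
    (hmax : ∀ v ∈ phase, kin v = kin w → F v ≤ F w) : ∃ μ : ℝ, fderiv ℝ F w = μ • fderiv ℝ kin w := by
  have hext : IsLocalExtrOn F {x | kin x = kin w} w := by
    refine Or.inr ?_
    filter_upwards [self_mem_nhdsWithin, mem_nhdsWithin_of_mem_nhds (isOpen_phase.mem_nhds hw)] with v h1 h2
    exact hmax v h2 h1
  obtain ⟨α, β, hne, he⟩ := hext.exists_multipliers_of_hasStrictFDerivAt_1d
    (contDiff_kin.contDiffAt.hasStrictFDerivAt (by simp)) ((hA.contDiffAt hw).hasStrictFDerivAt (by simp))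
  have hβ : β ≠ 0 := by
    rintro rfl
    have h1 := congrArg (fun L : (ℂ × ℂ) →L[ℝ] ℝ => L (0, w.2)) he
    simp only [zero_smul, add_zero, smul_apply, fderiv_kin, smul_eq_mul,
      zero_apply, zero_im] at h1
    have h2 : α * (2 * kin w) = 0 := by rw [kin]; linear_combination h1
    rcases mul_eq_zero.1 h2 with h | h
    · exact hne (by rw [h]; rfl)
    · linarith
  refine ⟨-α / β, ?_⟩
  refine ContinuousLinearMap.ext fun v => ?_
  have h1 := congrArg (fun L : (ℂ × ℂ) →L[ℝ] ℝ => L v) he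
  simp only [add_apply, smul_apply, smul_eq_mul,
    zero_apply] at h1 ⊢
  field_simp
  linarith

/-- Below the critical level: the radial derivative at a maximum point of the level is small. -/
theorem inner_deriv (hA : Admissible Γ a F c) (hC : Commutes F) {r : ℝ} (hr : 0 < r) (hr1 : r < 1) {n j : ℂ}
    (hd : det n j = 1) (hmax : ∀ n' j', det n' j' = 1 → F (psi r n' j') ≤ F (psi r n j)) :
    ∃ μ : ℝ, HasDerivAt (fun x => F (psi x n j)) (μ * (2 * r)) r ∧ |μ| < Real.pi / √(1 - r ^ 2) := by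
  have hd' : 0 < det n j := by rw [hd]; exact one_pos
  have hq : ∀ x : ℝ, 0 < x → x < 1 → 0 < √(1 - x ^ 2) := fun x h0 h1 => Real.sqrt_pos.2 (by nlinarith)
  have hT : ∀ x : ℝ, 0 < x → x < 1 → TrigPair (x ^ 2 - 1) (fun t => Real.cos (√(1 - x ^ 2) * t))
      (fun t => Real.sin (√(1 - x ^ 2) * t) / √(1 - x ^ 2)) := fun x h0 h1 =>
    trig_cos (hq x h0 h1) (by rw [Real.sq_sqrt (by nlinarith)]; ring)
  have hnb : ∀ᶠ x in 𝓝 r, 0 < x ∧ x < 1 := (eventually_gt_nhds hr).and (eventually_lt_nhds hr1)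
  have key : ∀ t, ∃ μ : ℝ, fderiv ℝ F (line r (fun t => Real.cos (√(1 - r ^ 2) * t))
      (fun t => Real.sin (√(1 - r ^ 2) * t) / √(1 - r ^ 2)) n j t) = μ • fderiv ℝ kin (line r
      (fun t => Real.cos (√(1 - r ^ 2) * t)) (fun t => Real.sin (√(1 - r ^ 2) * t) / √(1 - r ^ 2)) n j t) ∧
      HasDerivAt (fun x => F (psi x n j)) (μ * (2 * r)) r := by
    intro t
    have hp := (hT r hr hr1).line_mem hd t
    have hk := (hT r hr hr1).kin_line hd t
    obtain ⟨μ, hμ⟩ := multiplier hA hp (by rw [hk]; positivity) (fun v hv hkv => by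
      rw [const_line hA hC (hT r hr hr1) hd]
      obtain ⟨n', j', hd2, rfl⟩ := exists_psi hv hr.le (hkv.trans hk)
      exact hmax n' j' hd2)
    refine ⟨μ, hμ, ?_⟩
    have hs : DifferentiableAt ℝ (fun x : ℝ => √(1 - x ^ 2)) r :=
      DifferentiableAt.sqrt (by fun_prop) (by nlinarith)
    have hC' : DifferentiableAt ℝ (fun x : ℝ => ((Real.cos (√(1 - x ^ 2) * t) : ℝ) : ℂ)) r :=
      (hs.mul_const t).cos.hasDerivAt.ofReal_comp.differentiableAt
    have hS' : DifferentiableAt ℝ (fun x : ℝ => ((Real.sin (√(1 - x ^ 2) * t) / √(1 - x ^ 2) : ℝ) : ℂ)) r :=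
      ((hs.mul_const t).sin.div hs (hq r hr hr1).ne').hasDerivAt.ofReal_comp.differentiableAt
    have hx : DifferentiableAt ℝ (fun x : ℝ => (x : ℂ)) r := (hasDerivAt_id' r).ofReal_comp.differentiableAt
    have hev : ∀ y : ℂ, DifferentiableAt ℝ (fun x : ℝ => ev x (Real.cos (√(1 - x ^ 2) * t))
        (Real.sin (√(1 - x ^ 2) * t) / √(1 - x ^ 2)) y) r := fun y =>
      (hC'.mul_const y).add (hS'.mul (((hx.mul_const ((starRingEnd ℂ) y)).const_add y).const_mul I))
    have hc : DifferentiableAt ℝ (fun x : ℝ => line x (fun t => Real.cos (√(1 - x ^ 2) * t))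
        (fun t => Real.sin (√(1 - x ^ 2) * t) / √(1 - x ^ 2)) n j t) r :=
      differentiableAt_psi (hev n) (hev j) (ne_zero_of_det (n := ev r (Real.cos (√(1 - r ^ 2) * t))
        (Real.sin (√(1 - r ^ 2) * t) / √(1 - r ^ 2)) n) (by
          rw [(hT r hr hr1).det_eq n j t]; exact hd'))
    have h1 := hasDerivAt_radial hc (hnb.mono fun x hx => (hT x hx.1 hx.2).kin_line hd t)
      (hA.differentiableAt hp) hμ
    exact h1.congr_of_eventuallyEq (hnb.mono fun x hx => (const_line hA hC (hT x hx.1 hx.2) hd t).symm)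
  obtain ⟨μ, -, hμ⟩ := key 0
  refine ⟨μ, hμ, ?_⟩
  have hq' := hq r hr hr1
  have e : √(1 - r ^ 2) * (Real.pi / √(1 - r ^ 2)) = Real.pi := by field_simp
  refine abs_lt_of_closed hA hr (hT r hr hr1) hd (div_pos Real.pi_pos hq') Γ.one_mem (ε := -1) (Or.inr rfl)
    ?_ ?_ fun t => ?_
  · simp [e, ev, gn]
  · simp [e, ev, gj]
  · obtain ⟨μ', h1, h2⟩ := key t
    have := mul_right_cancel₀ (show 2 * r ≠ 0 by positivity) (h2.unique hμ)
    rw [h1, this]

end

end Pool.Agent.HZ64
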